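import Pool.Agent.Q212.ND.Std
import Pool.Agent.Y771.NF.Delta

/-! The discriminant. -/

set_option autoImplicit false

open UpperHalfPlane hiding I
open MatrixGroups CongruenceSubgroup Filter Topology Complex MeasureTheory Set

namespace Pool.Agent.Q212.ND

open Pool.Agent.H471R3.GJ (Hk IsHk)
open Pool.Agent.Q18.LF (StandardL)
open Pool.Agent.Y771.NF (lm psN)
open Pool.Agent.W97.TW (deltaForm)

theorem dat_delta : Dat (lm deltaForm) (psN 1) := by
  have hf := Pool.Agent.Y771.NF.newf_delta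
  have hH := Pool.Agent.Y771.NF.heckeSeq hf
  have hR := Pool.Agent.Y771.NF.p_rs 1 12 (by norm_num) deltaForm 1 hf
  refine ⟨?_, ?_, ?_, ?_, ?_, ?_⟩
  · unfold lm
    rw [hH.zero]
    simp
  · unfold lm
    rw [hH.one]
    simp
  · intro m n hmn
    unfold lm
    rw [hH.mul m n hmn]
    push_cast
    ring
  · intro p j hp
    unfold lm psN
    rw [hH.pow p j hp]
    split_ifs
    · push_cast
      ring
    · push_cast
      ring
  · intro p
    unfold psN
    split_ifs <;> simp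
  · intro σ hσ
    have h1 := hR.1 (σ - 1) (by linarith)
    refine h1.congr fun n => ?_
    unfold lm
    rw [Complex.norm_real, Real.norm_eq_abs, sq_abs]
    congr 2
    ring

open Pool.Agent.H128R3.JD.DelHk (hk)

theorem nrm_delta (B : ℝ) : Nrm (hk B) (lm deltaForm) := by
  intro m
  have hm : (0 : ℝ) < ((m + 1 : ℕ) : ℝ) := by positivity
  show ((((qExpansion 1 (CuspForm.discriminant : ℍ → ℂ)).coeff (m + 1)).re : ℝ) : ℂ) =
    (W388.lamf deltaForm (m + 1) : ℂ) * _
  rw [← Complex.ofReal_mul]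
  congr 1
  unfold W388.lamf
  have e : kap' (hk B) = (((12 : ℤ) : ℝ) - 1) / 2 := by
    show ((12 : ℝ) - 1) / 2 = _
    push_cast
    rfl
  rw [e]
  have e2 : (qExpansion 1 (CuspForm.discriminant : ℍ → ℂ)) = qExpansion 1 deltaForm := rfl
  rw [e2]
  field_simp

/-- **The discriminant is an instance.** -/
theorem std_delta : ∃ (B : ℝ) (α : Nat.Primes → Fin 2 → ℂ), IsHk (hk B) ∧ IsAl (lm deltaForm) (psN 1) α ∧
      StandardL (1 : ℝ) (![-((11 / 2 : ℝ) : ℂ), -(((11 / 2 : ℝ) : ℂ) + 1)] : Fin 2 → ℂ) α (1 : ℂ)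
        (Ls (hk B)) (Lc (hk B)) := by
  obtain ⟨B, hB⟩ := Pool.Agent.H128R3.JD.DelHk.isHk
  obtain ⟨α, hα⟩ := exists_al (lm deltaForm) (psN 1)
  have e2 : kap' (hk B) = 11 / 2 := by
    show ((12 : ℝ) - 1) / 2 = _
    norm_num
  have h := std hB rfl (by rw [e2]; norm_num) (nrm_delta B) dat_delta hα
  have e : (hk B).h ^ 2 = (1 : ℝ) := by
    show (1 : ℝ) ^ 2 = 1
    norm_num
  have e3 : ((hk B).ε : ℂ) = 1 := by
    show ((1 : ℝ) : ℂ) = 1
    norm_num
  rw [e, e2, e3] at h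
  exact ⟨B, α, hB, hα, h⟩

end Pool.Agent.Q212.ND
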