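import Pool.Agent.Q212.ND.Prm
import Pool.Agent.Q212.ND.Del

/-! One-sided bounds for `∑_{p ≤ x} τ(p) p^(-11/2)` in windows. -/

set_option autoImplicit false

open UpperHalfPlane hiding I
open MatrixGroups CongruenceSubgroup Filter Topology Complex MeasureTheory Set

namespace Pool.Agent.Q212.ND

open Pool.Agent.H471R3.GJ (Hk IsHk)
open Pool.Agent.Q18.LF (StandardL psum aut_neg aut_pos)

section gen

variable {H : Hk} {lam ps : ℕ → ℂ} {α : Nat.Primes → Fin 2 → ℂ} {N : ℝ} {μ : Fin 2 → ℂ} {ε : ℂ} {L Λ : ℂ → ℂ}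

theorem win_aux {c c' : ℝ} (hcc : c < c') {C σ : ℝ} (hσc : σ < c') :
    ∀ᶠ x : ℝ in atTop, x ^ c + C * x ^ σ ≤ x ^ c' := by
  have h1 := (tendsto_rpow_atTop (sub_pos.2 hcc)).eventually_ge_atTop 2
  have h2 := (tendsto_rpow_atTop (sub_pos.2 hσc)).eventually_ge_atTop (2 * C)
  filter_upwards [h1, h2, eventually_gt_atTop 0] with x hx1 hx2 hx0
  have e1 : x ^ c' = x ^ (c' - c) * x ^ c := by
    rw [← Real.rpow_add hx0]; congr 1; ring
  have e2 : x ^ c' = x ^ (c' - σ) * x ^ σ := by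
    rw [← Real.rpow_add hx0]; congr 1; ring
  have h3 : 2 * x ^ c ≤ x ^ c' := by rw [e1]; gcongr
  have h4 : 2 * C * x ^ σ ≤ x ^ c' := by rw [e2]; gcongr
  linarith

theorem window_shrink {δ : ℝ} {P : ℝ → Prop} {Q : ℝ → Prop} (hδ : 0 < δ) (hQ : ∀ᶠ x : ℝ in atTop, Q x)
    (h : ∀ δ' : ℝ, 0 < δ' → ∀ᶠ X : ℝ in atTop, ∃ x : ℝ, X ^ (1 - δ') ≤ x ∧ x ≤ X ∧ P x) :
    ∀ᶠ X : ℝ in atTop, ∃ x : ℝ, X ^ (1 - δ) ≤ x ∧ x ≤ X ∧ P x ∧ Q x := by
  obtain ⟨x₀, hx₀⟩ := Filter.eventually_atTop.1 hQ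
  have h1 := h (min δ (1 / 2)) (by positivity)
  have h2 : Tendsto (fun X : ℝ => X ^ (1 - min δ (1 / 2))) atTop atTop :=
    tendsto_rpow_atTop (by linarith [min_le_right δ (1 / 2)])
  filter_upwards [h1, h2.eventually_ge_atTop x₀, eventually_ge_atTop 1] with X hX hX2 hX1
  obtain ⟨x, a1, a2, a3⟩ := hX
  refine ⟨x, ?_, a2, a3, hx₀ x (hX2.trans a1)⟩
  refine le_trans ?_ a1
  exact Real.rpow_le_rpow_of_exponent_le hX1 (by linarith [min_le_left δ (1 / 2)])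

theorem prm_neg (hS : StandardL N μ α ε L Λ) (hd : Dat lam ps) (hα : IsAl lam ps α) {c δ : ℝ} (hc : 1 / 2 ≤ c)
    (hδ : 0 < δ) {s : ℂ} (hs : c < s.re) (h0 : L s = 0) :
    ∀ᶠ X : ℝ in atTop, ∃ x : ℝ, X ^ (1 - δ) ≤ x ∧ x ≤ X ∧ prm lam x ≤ -x ^ c := by
  obtain ⟨c', h1, h2⟩ := exists_between hs
  obtain ⟨σ, h3, h4⟩ := exists_between (lt_of_le_of_lt hc h1)
  obtain ⟨C, hC0, hC⟩ := psum_prm hd hα h3
  have hQ := (win_aux (C := C) h1 h4).and (eventually_ge_atTop 1)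
  have h5 := window_shrink (P := fun x => psum α x ≤ -x ^ c') hδ hQ fun δ' hδ' =>
    aut_neg hS hδ' (Or.inr ⟨s, h2, h0⟩)
  filter_upwards [h5] with X hX
  obtain ⟨x, a1, a2, a3, a4, a5⟩ := hX
  have h6 := (abs_le.1 (hC x a5)).1
  exact ⟨x, a1, a2, by linarith⟩

theorem prm_pos (hS : StandardL N μ α ε L Λ) (hd : Dat lam ps) (hα : IsAl lam ps α) {c δ : ℝ} (hc : 1 / 2 ≤ c)
    (hδ : 0 < δ) (hreal : ∀ β : ℝ, c < β → L (β : ℂ) ≠ 0) {s : ℂ} (hs : c < s.re) (h0 : L s = 0) :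
    ∀ᶠ X : ℝ in atTop, ∃ x : ℝ, X ^ (1 - δ) ≤ x ∧ x ≤ X ∧ x ^ c ≤ prm lam x := by
  obtain ⟨c', h1, h2⟩ := exists_between hs
  obtain ⟨σ, h3, h4⟩ := exists_between (lt_of_le_of_lt hc h1)
  obtain ⟨C, hC0, hC⟩ := psum_prm hd hα h3
  have hQ := (win_aux (C := C) h1 h4).and (eventually_ge_atTop 1)
  have h5 := window_shrink (P := fun x => x ^ c' ≤ psum α x) hδ hQ fun δ' hδ' =>
    aut_pos hS hδ' (fun β hβ => hreal β (by linarith)) (Or.inr ⟨s, h2, h0⟩)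
  filter_upwards [h5] with X hX
  obtain ⟨x, a1, a2, a3, a4, a5⟩ := hX
  have h6 := (abs_le.1 (hC x a5)).2
  exact ⟨x, a1, a2, by linarith⟩

end gen

/-! ### Ramanujan's function -/

open Pool.Agent.Y771.NF (lm psN coeff_zero_of)
open Pool.Agent.W97.TW (deltaForm)
open Pool.Agent.H128R3.JD.DelK (Dl)
open Pool.Agent.H128R3.JD.DelHk (hk)

/-- `τ` is Ramanujan's function: `∑ τ(n) r^n = r ∏ (1 - r^n)^24` for `0 < r < 1`. -/
def IsTau (τ : ℕ → ℝ) : Prop := ∀ r : ℝ, 0 < r → r < 1 →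
  HasSum (fun n : ℕ => τ n * r ^ n) (r * ∏' n : ℕ, (1 - r ^ (n + 1)) ^ 24)

theorem isTau_delta : IsTau fun n => ((qExpansion 1 deltaForm).coeff n).re := by
  intro r hr hr1
  obtain ⟨y, hy⟩ : ∃ y : ℝ, y = -Real.log r / (2 * Real.pi) := ⟨_, rfl⟩
  have hpi := Real.pi_pos
  have hlog : Real.log r < 0 := Real.log_neg hr hr1
  have hy0 : 0 < y := by
    rw [hy]
    have : 0 < -Real.log r := by linarith
    positivity
  have hyi : 0 < (Complex.I * (y : ℂ)).im := by simpa using hy0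
  have h1 := Pool.Agent.W97.TW.hasSum_f deltaForm hyi
  have h2 := Complex.hasSum_re h1
  have h3 : (deltaForm (ofComplex (Complex.I * y))).re = Dl y := by
    have h4 := Pool.Agent.H128R3.JD.DelK.Dl_eq hy0
    have h5 : deltaForm (ofComplex (Complex.I * y)) = ModularForm.discriminant (ofComplex (Complex.I * y)) := rfl
    rw [h5, ← h4, Complex.ofReal_re]
  have hexp : Real.exp (-2 * Real.pi * y) = r := by
    have : -2 * Real.pi * y = Real.log r := by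
      rw [hy]
      field_simp
    rw [this, Real.exp_log hr]
  have h8 : Dl y = r * ∏' n : ℕ, (1 - r ^ (n + 1)) ^ 24 := by
    unfold Dl
    rw [hexp]
    congr 1
    refine tprod_congr fun n => ?_
    rw [Pool.Agent.H128R3.JD.DelK.fac_eq, hexp]
  rw [h3, h8] at h2
  refine h2.congr_fun fun m => ?_
  have h6 : cexp (2 * Real.pi * Complex.I * m * (Complex.I * y)) = ((r ^ m : ℝ) : ℂ) := by
    have h7 : (2 * Real.pi * Complex.I * m * (Complex.I * y) : ℂ) = ((m * Real.log r : ℝ) : ℂ) := by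
      rw [hy]
      push_cast
      have : (Real.pi : ℂ) ≠ 0 := by exact_mod_cast hpi.ne'
      field_simp
      rw [Complex.I_sq]
      ring
    rw [h7, ← Complex.ofReal_exp, mul_comm, Real.exp_mul, Real.exp_log hr, Real.rpow_natCast]
  rw [h6, Complex.re_mul_ofReal]
  rfl

theorem isTau_unique {τ τ' : ℕ → ℝ} (h : IsTau τ) (h' : IsTau τ') : τ = τ' := by
  funext n
  have h1 := coeff_zero_of (c := fun n => τ n - τ' n) (fun r hr hr1 => by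
    have := (h r hr hr1).sub (h' r hr hr1)
    rw [sub_self] at this
    refine this.congr_fun fun n => ?_
    ring) n
  linarith

/-- `Ξ_Δ(z) = (2π)^(-6-iz) Γ(6+iz) L(6+iz, Δ)`, as the Mellin transform of `y ↦ Δ(iy)` at `6 + iz`. -/
noncomputable def Xi (z : ℂ) : ℂ :=
  mellin (fun y : ℝ => (((Real.exp (-2 * Real.pi * y)) *
    ∏' n : ℕ, (1 - Real.exp (-2 * Real.pi * ((n : ℝ) + 1) * y)) ^ 24 : ℝ) : ℂ)) (6 + Complex.I * z)

/-- `P(x) = ∑_{p ≤ x} τ(p) p^(-11/2)` -/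
noncomputable def Pt (τ : ℕ → ℝ) (x : ℝ) : ℝ :=
  ∑ p ∈ (Finset.Icc 1 ⌊x⌋₊).filter Nat.Prime, τ p / (p : ℝ) ^ (11 / 2 : ℝ)

theorem pt_prm {τ : ℕ → ℝ} (h : IsTau τ) (x : ℝ) : Pt τ x = prm (lm deltaForm) x := by
  rw [isTau_unique h isTau_delta]
  unfold Pt prm
  refine Finset.sum_congr rfl fun p _ => ?_
  show _ = ((W388.lamf deltaForm p : ℝ) : ℂ).re
  rw [Complex.ofReal_re]
  unfold W388.lamf
  have : (((12 : ℤ) : ℝ) - 1) / 2 = 11 / 2 := by norm_num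
  rw [this]

theorem xi_mel (B : ℝ) (z : ℂ) : Xi z = Mel (hk B) (6 + Complex.I * z) := rfl

theorem xi_even (z : ℂ) : Xi (-z) = Xi z := by
  obtain ⟨B, hB⟩ := Pool.Agent.H128R3.JD.DelHk.isHk
  rw [xi_mel B, xi_mel B]
  have h1 := mel_fe hB (6 + Complex.I * z)
  have e1 : (((hk B).k : ℝ) : ℂ) - (6 + Complex.I * z) = 6 + Complex.I * (-z) := by
    show ((12 : ℝ) : ℂ) - (6 + Complex.I * z) = 6 + Complex.I * (-z)
    push_cast
    ring
  have e2 : (((hk B).ε : ℝ) : ℂ) = 1 := by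
    show ((1 : ℝ) : ℂ) = 1
    norm_num
  rw [e1, e2, one_mul] at h1
  exact h1

theorem kap_hk (B : ℝ) : kap' (hk B) = 11 / 2 := by
  show ((12 : ℝ) - 1) / 2 = _
  norm_num

/-- a zero of `Xi` is a zero of `L` -/
theorem ls_zero {B : ℝ} {z : ℂ} (hz : Xi z = 0) : Ls (hk B) (1 / 2 + Complex.I * z) = 0 := by
  unfold Ls EE
  have e : 1 / 2 + Complex.I * z + ((kap' (hk B) : ℝ) : ℂ) = 6 + Complex.I * z := by
    rw [kap_hk]
    push_cast
    ring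
  rw [e, ← xi_mel B, hz, zero_mul, mul_zero]

/-- `Λ(x) > 0` on the real axis -/
theorem mel_pos (B : ℝ) (x : ℝ) : Mel (hk B) (x : ℂ) ≠ 0 := by
  obtain ⟨B', hB'⟩ := Pool.Agent.H128R3.JD.DelHk.isHk
  have e0 : Mel (hk B) (x : ℂ) = Mel (hk B') (x : ℂ) := rfl
  rw [e0]
  have hconv : IntegrableOn (fun t : ℝ => (t:ℂ) ^ ((x : ℂ) - 1) • ((Dl t : ℝ) : ℂ)) (Ioi 0) :=
    ((strong hB').hasMellin (x : ℂ)).1
  have hreal : ∀ t ∈ Ioi (0 : ℝ), (t:ℂ) ^ ((x : ℂ) - 1) • ((Dl t : ℝ) : ℂ) = ((t ^ (x - 1) * Dl t : ℝ) : ℂ) := by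
    intro t ht
    have ht : 0 < t := ht
    rw [smul_eq_mul, Complex.ofReal_mul, Complex.ofReal_cpow ht.le]
    push_cast
    rfl
  have h1 : Mel (hk B') (x : ℂ) = ((∫ t in Ioi (0 : ℝ), t ^ (x - 1) * Dl t : ℝ) : ℂ) := by
    exact (setIntegral_congr_fun measurableSet_Ioi hreal).trans integral_ofReal
  rw [h1]
  have hint : IntegrableOn (fun t : ℝ => t ^ (x - 1) * Dl t) (Ioi 0) := by
    have h2 : IntegrableOn (fun t : ℝ => ((t ^ (x - 1) * Dl t : ℝ) : ℂ)) (Ioi 0) :=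
      hconv.congr_fun hreal measurableSet_Ioi
    have h3 : Integrable (fun t : ℝ => t ^ (x - 1) * Dl t) (volume.restrict (Ioi 0)) := by
      simpa using h2.re
    exact h3
  have hpos : 0 < ∫ t in Ioi (0 : ℝ), t ^ (x - 1) * Dl t := by
    rw [setIntegral_pos_iff_support_of_nonneg_ae]
    · have hsub : Ioi (0 : ℝ) ⊆ Function.support (fun t : ℝ => t ^ (x - 1) * Dl t) ∩ Ioi 0 := by
        intro t ht
        have ht' : 0 < t := ht
        exact ⟨(mul_pos (Real.rpow_pos_of_pos ht' _) (Pool.Agent.H128R3.JD.DelK.Dl_pos ht')).ne', ht⟩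
      refine lt_of_lt_of_le ?_ (measure_mono hsub)
      rw [Real.volume_Ioi]
      exact ENNReal.zero_lt_top
    · filter_upwards [self_mem_ae_restrict measurableSet_Ioi] with t ht
      have ht' : 0 < t := ht
      exact (mul_pos (Real.rpow_pos_of_pos ht' _) (Pool.Agent.H128R3.JD.DelK.Dl_pos ht')).le
    · exact hint
  exact_mod_cast hpos.ne'

theorem ls_real {B : ℝ} {β : ℝ} (hβ : 1 / 2 < β) : Ls (hk B) (β : ℂ) ≠ 0 := by
  obtain ⟨B', hB'⟩ := Pool.Agent.H128R3.JD.DelHk.isHk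
  have e0 : Ls (hk B) (β : ℂ) = Ls (hk B') (β : ℂ) := rfl
  rw [e0]
  unfold Ls EE
  have e : (β : ℂ) + ((kap' (hk B') : ℝ) : ℂ) = ((β + 11 / 2 : ℝ) : ℂ) := by
    rw [kap_hk]
    push_cast
    ring
  rw [e]
  refine mul_ne_zero ?_ (mul_ne_zero (mel_pos B' _) (inv_ne_zero ?_))
  · rw [Complex.cpow_def_of_ne_zero (hh_ne hB')]
    exact Complex.exp_ne_zero _
  · refine Complex.Gamma_ne_zero_of_re_pos ?_
    rw [Complex.ofReal_re]
    linarith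

/-- the zero to the right -/
theorem right_zero {B : ℝ} {c : ℝ} {z : ℂ} (hz : c - 1 / 2 < |z.im|) (h0 : Xi z = 0) :
    ∃ s : ℂ, c < s.re ∧ Ls (hk B) s = 0 := by
  rcases lt_or_ge z.im 0 with h | h
  · refine ⟨1 / 2 + Complex.I * z, ?_, ls_zero h0⟩
    rw [abs_of_neg h] at hz
    have : (1 / 2 + Complex.I * z).re = 1 / 2 - z.im := by simp; ring
    rw [this]
    linarith
  · refine ⟨1 / 2 + Complex.I * (-z), ?_, ls_zero (by rw [xi_even, h0])⟩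
    rw [abs_of_nonneg h] at hz
    have : (1 / 2 + Complex.I * (-z)).re = 1 / 2 + z.im := by simp
    rw [this]
    linarith

/-- **Oscillations in every window.** -/
theorem osc {τ : ℕ → ℝ} (hτ : IsTau τ) {c δ : ℝ} (hc : 1 / 2 ≤ c) (hδ : 0 < δ) {z : ℂ} (hz : c - 1 / 2 < |z.im|)
    (h0 : Xi z = 0) :
    (∀ᶠ X : ℝ in atTop, ∃ x : ℝ, X ^ (1 - δ) ≤ x ∧ x ≤ X ∧ Pt τ x ≤ -x ^ c) ∧
    ∀ᶠ X : ℝ in atTop, ∃ x : ℝ, X ^ (1 - δ) ≤ x ∧ x ≤ X ∧ x ^ c ≤ Pt τ x := by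
  obtain ⟨B, α, hB, hα, hS⟩ := std_delta
  obtain ⟨s, h1, h2⟩ := right_zero (B := B) hz h0
  simp only [pt_prm hτ]
  exact ⟨prm_neg hS dat_delta hα hc hδ h1 h2, prm_pos hS dat_delta hα hc hδ (fun β hβ => ls_real (by linarith)) h1 h2⟩

end Pool.Agent.Q212.ND
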