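import Pool.Agent.Q212.ND.EP
import Pool.Agent.Q212.ND.Win
import Pool.Agent.Q18.W.Mean3
import Pool.Agent.TH270.MS.Main

/-! Exponentials of sums over prime powers at the centre of `L(s, Δ)`. -/

set_option autoImplicit false

open Complex Filter Topology Set MeasureTheory

namespace Pool.Agent.Q212.ND

open Pool.Agent.Y771.NF (lm psN)
open Pool.Agent.W97.TW (deltaForm)
open Pool.Agent.H128R3.JD.DelHk (hk)

/-- `P*(y) = exp (- ∑_{p^k ≤ y} (α_p^k + β_p^k) / (k p^(6k)))`, `k = x.2 + 1`, `α_p, β_p` the roots of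
`X² - τ(p) X + p^11`, `pw (τ p) (p^11) k = α_p^k + β_p^k` -/
noncomputable def PS (τ : ℕ → ℝ) (y : ℝ) : ℝ :=
  Real.exp (-∑ᶠ (x : Nat.Primes × ℕ) (_ : ((x.1 : ℕ) : ℝ) ^ (x.2 + 1) ≤ y),
    pw (τ x.1) (((x.1 : ℕ) : ℝ) ^ 11) (x.2 + 1) / (((x.2 : ℝ) + 1) * (((x.1 : ℕ) : ℝ) ^ 6) ^ (x.2 + 1)))


variable {τ : ℕ → ℝ} {a : Nat.Primes → Fin 2 → ℂ}

/-- `F(s) = L(s, Δ)` -/
noncomputable def LD (B : ℝ) (s : ℂ) : ℂ := Ls (hk B) (s - ((11 / 2 : ℝ) : ℂ))

theorem tau_lm (h : IsTau τ) (p : ℕ) : lm deltaForm p = ((τ p / (p : ℝ) ^ (11 / 2 : ℝ) : ℝ) : ℂ) := by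
  rw [isTau_unique h isTau_delta]
  show ((W388.lamf deltaForm p : ℝ) : ℂ) = _
  unfold W388.lamf
  have : (((12 : ℤ) : ℝ) - 1) / 2 = 11 / 2 := by norm_num
  rw [this]

/-! ### positivity on the real axis -/

theorem dl_conv (x : ℝ) : IntegrableOn (fun t : ℝ => (t:ℂ) ^ ((x : ℂ) - 1) •
    ((Pool.Agent.H128R3.JD.DelK.Dl t : ℝ) : ℂ)) (Ioi 0) := by
  obtain ⟨B', hB'⟩ := Pool.Agent.H128R3.JD.DelHk.isHk
  exact ((strong hB').hasMellin (x : ℂ)).1

theorem dl_real (x : ℝ) : ∀ t ∈ Ioi (0 : ℝ), (t:ℂ) ^ ((x : ℂ) - 1) • ((Pool.Agent.H128R3.JD.DelK.Dl t : ℝ) : ℂ) =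
    ((t ^ (x - 1) * Pool.Agent.H128R3.JD.DelK.Dl t : ℝ) : ℂ) := by
  intro t ht
  have ht : 0 < t := ht
  rw [smul_eq_mul, Complex.ofReal_mul, Complex.ofReal_cpow ht.le]
  push_cast
  rfl

theorem mel_real (B x : ℝ) : Mel (hk B) (x : ℂ) =
    ((∫ t in Ioi (0 : ℝ), t ^ (x - 1) * Pool.Agent.H128R3.JD.DelK.Dl t : ℝ) : ℂ) :=
  (setIntegral_congr_fun measurableSet_Ioi (dl_real x)).trans integral_ofReal

theorem mel_int_pos (x : ℝ) : 0 < ∫ t in Ioi (0 : ℝ), t ^ (x - 1) * Pool.Agent.H128R3.JD.DelK.Dl t := by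
  have hint : IntegrableOn (fun t : ℝ => t ^ (x - 1) * Pool.Agent.H128R3.JD.DelK.Dl t) (Ioi 0) := by
    have h2 : IntegrableOn (fun t : ℝ => ((t ^ (x - 1) * Pool.Agent.H128R3.JD.DelK.Dl t : ℝ) : ℂ)) (Ioi 0) :=
      (dl_conv x).congr_fun (dl_real x) measurableSet_Ioi
    have h3 : Integrable (fun t : ℝ => t ^ (x - 1) * Pool.Agent.H128R3.JD.DelK.Dl t) (volume.restrict (Ioi 0)) := by
      simpa using h2.re
    exact h3
  rw [setIntegral_pos_iff_support_of_nonneg_ae]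
  · have hsub : Ioi (0 : ℝ) ⊆ Function.support (fun t : ℝ => t ^ (x - 1) * Pool.Agent.H128R3.JD.DelK.Dl t) ∩ Ioi 0 := by
      intro t ht
      have ht' : 0 < t := ht
      exact ⟨(mul_pos (Real.rpow_pos_of_pos ht' _) (Pool.Agent.H128R3.JD.DelK.Dl_pos ht')).ne', ht⟩
    refine lt_of_lt_of_le ?_ (measure_mono hsub)
    rw [Real.volume_Ioi]
    exact ENNReal.zero_lt_top
  · filter_upwards [self_mem_ae_restrict measurableSet_Ioi] with t ht
    have ht' : 0 < t := ht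
    exact (mul_pos (Real.rpow_pos_of_pos ht' _) (Pool.Agent.H128R3.JD.DelK.Dl_pos ht')).le
  · exact hint

/-- the formula for `F` -/
theorem LD_eq {B : ℝ} (s : ℂ) : LD B s = ((2 * Real.pi : ℝ) : ℂ) ^ s * (Mel (hk B) s * (Complex.Gamma s)⁻¹) := by
  unfold LD Ls EE
  have e1 : s - ((11 / 2 : ℝ) : ℂ) + ((kap' (hk B) : ℝ) : ℂ) = s := by
    rw [kap_hk]
    ring
  rw [e1]
  have e2 : (((hk B).h / (2 * Real.pi) : ℝ) : ℂ) = (((2 * Real.pi : ℝ) : ℂ))⁻¹ := by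
    show ((1 / (2 * Real.pi) : ℝ) : ℂ) = _
    rw [one_div, Complex.ofReal_inv]
  have hpi : 0 < 2 * Real.pi := by positivity
  rw [e2, Complex.inv_cpow _ _ (by rw [Complex.arg_ofReal_of_nonneg hpi.le]; exact Real.pi_pos.ne), Complex.cpow_neg,
    inv_inv]

theorem LD_zero {B : ℝ} {s : ℂ} (hs : 0 < s.re) : LD B s = 0 ↔ Mel (hk B) s = 0 := by
  rw [LD_eq]
  have hpi : ((2 * Real.pi : ℝ) : ℂ) ≠ 0 := by
    have : 0 < 2 * Real.pi := by positivity
    exact_mod_cast this.ne'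
  have h1 : ((2 * Real.pi : ℝ) : ℂ) ^ s ≠ 0 := by
    rw [Complex.cpow_def_of_ne_zero hpi]
    exact Complex.exp_ne_zero _
  have h2 : (Complex.Gamma s)⁻¹ ≠ 0 := inv_ne_zero (Complex.Gamma_ne_zero_of_re_pos hs)
  constructor
  · intro h
    rcases mul_eq_zero.1 h with h3 | h3
    · exact absurd h3 h1
    · rcases mul_eq_zero.1 h3 with h4 | h4
      · exact h4
      · exact absurd h4 h2
  · intro h
    rw [h, zero_mul, mul_zero]

theorem rh_iff (B : ℝ) : (∀ s : ℂ, 6 < s.re → LD B s ≠ 0) ↔ ∀ z : ℂ, Xi z = 0 → z.im = 0 := by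
  constructor
  · intro h z hz
    have key : ∀ w : ℂ, Xi w = 0 → 0 ≤ w.im := by
      intro w hw
      by_contra hcon
      rw [not_le] at hcon
      have h1 : (6 + Complex.I * w).re = 6 - w.im := by simp; ring
      have h2 : 6 < (6 + Complex.I * w).re := by rw [h1]; linarith
      exact h _ h2 ((LD_zero (by linarith)).2 ((xi_mel B w).symm.trans hw))
    have h3 := key z hz
    have h4 := key (-z) (by rw [xi_even, hz])
    rw [Complex.neg_im] at h4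
    linarith
  · intro h s hs h0
    have h1 := (LD_zero (by linarith)).1 h0
    have h2 := h (-(Complex.I * (s - 6))) (by
      rw [xi_mel B]
      have : 6 + Complex.I * (-(Complex.I * (s - 6))) = s := by
        have hI := Complex.I_mul_I
        linear_combination (-(s - 6)) * hI
      rw [this, h1])
    have h3 : (-(Complex.I * (s - 6))).im = -(s.re - 6) := by simp
    rw [h3] at h2
    linarith

/-- `L(6, Δ) = (2π)^6 Ξ_Δ(0) / Γ(6)` -/
noncomputable def central : ℝ := (2 * Real.pi) ^ 6 / 120 * (Xi 0).re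

theorem central_eq (B : ℝ) : LD B 6 = (central : ℂ) := by
  have h1 : Mel (hk B) 6 = Xi 0 := by
    rw [xi_mel B]
    simp
  have h2 : (Xi 0).im = 0 := by
    have h3 := mel_conj (H := hk B) 6
    rw [h1] at h3
    have h4 : (starRingEnd ℂ) (6 : ℂ) = 6 := map_ofNat _ 6
    rw [h4, h1] at h3
    exact Complex.conj_eq_iff_im.1 h3.symm
  have h5 : Xi 0 = ((Xi 0).re : ℂ) := Complex.ext (by simp) (by simp [h2])
  have hG : Complex.Gamma 6 = 120 := by
    have : (6 : ℂ) = ((5 : ℕ) : ℂ) + 1 := by push_cast; norm_num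
    rw [this, Complex.Gamma_nat_eq_factorial]
    norm_num [Nat.factorial]
  rw [LD_eq, h1, h5, hG]
  unfold central
  have h6 : ((2 * Real.pi : ℝ) : ℂ) ^ (6 : ℂ) = (((2 * Real.pi) ^ 6 : ℝ) : ℂ) := by
    have : (6 : ℂ) = ((6 : ℕ) : ℂ) := by push_cast; rfl
    rw [this, Complex.cpow_natCast]
    push_cast
    ring
  rw [h6]
  push_cast
  ring

theorem central_pos : 0 < central := by
  have h1 : Xi 0 = ((∫ t in Ioi (0 : ℝ), t ^ ((6 : ℝ) - 1) * Pool.Agent.H128R3.JD.DelK.Dl t : ℝ) : ℂ) := by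
    have h2 := xi_mel 0 0
    have h3 : Mel (hk 0) (6 + Complex.I * 0) = Mel (hk 0) ((6 : ℝ) : ℂ) := by
      congr 1
      push_cast
      ring
    rw [h2, h3]
    exact mel_real 0 6
  unfold central
  rw [h1, Complex.ofReal_re]
  have h4 := mel_int_pos 6
  positivity

end Pool.Agent.Q212.ND
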