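import Pool.Agent.Q212.ND.CU

/-! The coefficients of the logarithm of `L(s, Δ)`. -/

set_option autoImplicit false

open Complex Filter Topology Set MeasureTheory

namespace Pool.Agent.Q212.ND

open Pool.Agent.Y771.NF (lm psN)
open Pool.Agent.W97.TW (deltaForm)
open Pool.Agent.H128R3.JD.DelHk (hk)
open Pool.Agent.W189.TP (DS)
open Pool.Agent.TH949.TX (AA)

variable {τ : ℕ → ℝ}

/-- the coefficients -/
noncomputable def cf (τ : ℕ → ℝ) (x : Nat.Primes × ℕ) : ℝ :=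
  pw (τ x.1) (((x.1 : ℕ) : ℝ) ^ 11) (x.2 + 1) / (((x.2 : ℝ) + 1) * (((x.1 : ℕ) : ℝ) ^ 6) ^ (x.2 + 1))

/-- the logarithms of the prime powers -/
noncomputable def lg (x : Nat.Primes × ℕ) : ℝ := ((x.2 : ℝ) + 1) * Real.log ((x.1 : ℕ) : ℝ)

theorem lg_exp (x : Nat.Primes × ℕ) : Real.exp (lg x) = (((x.1 : ℕ) : ℝ)) ^ (x.2 + 1) := by
  have hp0 : (0 : ℝ) < (x.1 : ℕ) := by exact_mod_cast x.1.2.pos
  unfold lg
  rw [show ((x.2 : ℝ) + 1) * Real.log ((x.1 : ℕ) : ℝ) = ((x.2 + 1 : ℕ) : ℝ) * Real.log ((x.1 : ℕ) : ℝ) by push_cast; rfl,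
    Real.exp_nat_mul, Real.exp_log hp0]

theorem lg_ge (x : Nat.Primes × ℕ) : Real.log 2 ≤ lg x := by
  have hp2 : (2 : ℝ) ≤ (x.1 : ℕ) := by exact_mod_cast x.1.2.two_le
  have h1 : Real.log 2 ≤ Real.log ((x.1 : ℕ) : ℝ) := Real.log_le_log (by norm_num) hp2
  have h2 : 0 < Real.log 2 := Real.log_pos (by norm_num)
  unfold lg
  have h3 : (0 : ℝ) ≤ x.2 := Nat.cast_nonneg _
  nlinarith

theorem lg_nonneg (x : Nat.Primes × ℕ) : 0 ≤ lg x := (Real.log_pos (by norm_num)).le.trans (lg_ge x)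

/-- the normalised roots -/
theorem tr_pw (hτ : IsTau τ) {α : Nat.Primes → Fin 2 → ℂ} (hα : IsAl (lm deltaForm) (psN 1) α) (p : Nat.Primes) (k : ℕ) :
    tr (α p) k * ((((p : ℕ) : ℝ) ^ (11 / 2 : ℝ) : ℝ) : ℂ) ^ k = (pw (τ p) (((p : ℕ) : ℝ) ^ 11) k : ℂ) := by
  have hp0 : (0 : ℝ) < (p : ℕ) := by exact_mod_cast p.2.pos
  obtain ⟨P, hP⟩ : ∃ P : ℂ, P = ((((p : ℕ) : ℝ) ^ (11 / 2 : ℝ) : ℝ) : ℂ) := ⟨_, rfl⟩
  have e4 : P ≠ 0 := by
    rw [hP]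
    exact_mod_cast (Real.rpow_pos_of_pos hp0 _).ne'
  have e3 : ((((p : ℕ) : ℝ) ^ 11 : ℝ) : ℂ) = P ^ 2 := by
    rw [hP, ← Complex.ofReal_pow]
    congr 1
    rw [← Real.rpow_natCast, ← Real.rpow_natCast, ← Real.rpow_mul hp0.le]
    norm_num
  have e2 : psN 1 (p : ℕ) = 1 := by
    unfold psN
    rw [if_neg]
    intro hd
    exact p.2.one_lt.ne' (Nat.dvd_one.1 hd)
  have h1 : α p 0 * P + α p 1 * P = (τ p : ℂ) := by
    rw [← add_mul, (hα p).1, tau_lm hτ, Complex.ofReal_div, ← hP]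
    field_simp
  have h2 : α p 0 * P * (α p 1 * P) = ((((p : ℕ) : ℝ) ^ 11 : ℝ) : ℂ) := by
    rw [e3]
    have h3 := (hα p).2
    rw [e2] at h3
    linear_combination P ^ 2 * h3
  rw [← hP, ← pw_eq h1 h2 k]
  unfold tr
  rw [Fin.sum_univ_two, mul_pow, mul_pow]
  ring

theorem term_eq (hτ : IsTau τ) {α : Nat.Primes → Fin 2 → ℂ} (hα : IsAl (lm deltaForm) (psN 1) α) (x : Nat.Primes × ℕ) (s : ℂ) :
    tr (α x.1) (x.2 + 1) / ((x.2 : ℂ) + 1) * (((x.1 : ℕ) : ℂ) ^ (-(s + 1 / 2))) ^ (x.2 + 1) =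
      (cf τ x : ℂ) * cexp (-(s * lg x)) := by
  obtain ⟨p, k⟩ := x
  have hp0 : (0 : ℝ) < (p : ℕ) := by exact_mod_cast p.2.pos
  have hpc : ((p : ℕ) : ℂ) ≠ 0 := by exact_mod_cast p.2.ne_zero
  have h1 := tr_pw hτ hα p (k + 1)
  obtain ⟨P, hP⟩ : ∃ P : ℂ, P = ((((p : ℕ) : ℝ) ^ (11 / 2 : ℝ) : ℝ) : ℂ) := ⟨_, rfl⟩
  have e4 : P ≠ 0 := by
    rw [hP]
    exact_mod_cast (Real.rpow_pos_of_pos hp0 _).ne'
  rw [← hP] at h1
  have e5 : ((p : ℕ) : ℂ) ^ (-(s + 1 / 2)) = P * (((p : ℕ) : ℂ) ^ 6)⁻¹ * cexp (-(s * Real.log ((p : ℕ) : ℝ))) := by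
    have a1 : P = ((p : ℕ) : ℂ) ^ (11 / 2 : ℂ) := by
      rw [hP, Complex.ofReal_cpow hp0.le]
      push_cast
      rfl
    have a2 : (((p : ℕ) : ℂ) ^ 6)⁻¹ = ((p : ℕ) : ℂ) ^ (-6 : ℂ) := by
      rw [Complex.cpow_neg]
      congr 1
      have : (6 : ℂ) = ((6 : ℕ) : ℂ) := by push_cast; rfl
      rw [this, Complex.cpow_natCast]
    have a3 : cexp (-(s * Real.log ((p : ℕ) : ℝ))) = ((p : ℕ) : ℂ) ^ (-s) := by
      rw [Complex.cpow_def_of_ne_zero hpc, Complex.ofReal_log hp0.le]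
      congr 1
      push_cast
      ring
    rw [a1, a2, a3, ← Complex.cpow_add _ _ hpc, ← Complex.cpow_add _ _ hpc]
    congr 1
    ring
  have e6 : cexp (-(s * lg (p, k))) = cexp (-(s * Real.log ((p : ℕ) : ℝ))) ^ (k + 1) := by
    rw [← Complex.exp_nat_mul]
    congr 1
    unfold lg
    push_cast
    ring
  have e7 : (cf τ (p, k) : ℂ) = tr (α p) (k + 1) * P ^ (k + 1) / (((k : ℂ) + 1) * (((p : ℕ) : ℂ) ^ 6) ^ (k + 1)) := by
    unfold cf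
    rw [h1]
    push_cast
    rfl
  have hk0 : ((k : ℂ) + 1) ≠ 0 := by
    have : ((k : ℂ) + 1) = ((k + 1 : ℕ) : ℂ) := by push_cast; rfl
    rw [this]
    exact_mod_cast k.succ_ne_zero
  show tr (α p) (k + 1) / ((k : ℂ) + 1) * (((p : ℕ) : ℂ) ^ (-(s + 1 / 2))) ^ (k + 1) = _
  rw [e5, e6, e7, mul_pow, mul_pow, inv_pow]
  field_simp

theorem cf_summable (hτ : IsTau τ) {t : ℝ} (ht : 1 / 2 < t) :
    Summable fun x : Nat.Primes × ℕ => |cf τ x| * Real.exp (-(t * lg x)) := by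
  obtain ⟨α, hα⟩ := exists_al (lm deltaForm) (psN 1)
  have h1 := summ dat_delta hα (σ := t + 1 / 2) (by linarith)
  refine h1.congr fun x => ?_
  have h2 := congrArg norm (term_eq hτ hα x (t : ℂ))
  rw [norm_mul, norm_mul, norm_div, norm_succ, npow, Complex.norm_real, Complex.norm_exp, Real.norm_eq_abs] at h2
  have e1 : ((t : ℂ) + 1 / 2).re = t + 1 / 2 := by simp
  have e2 : (-((t : ℂ) * (lg x : ℂ))).re = -(t * lg x) := by
    rw [← Complex.ofReal_mul, ← Complex.ofReal_neg, Complex.ofReal_re]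
  rw [e1, e2] at h2
  exact h2

/-- the function centred at `0` -/
noncomputable def FD (B : ℝ) (s : ℂ) : ℂ := LD B (s + 6)

theorem FD_exp (hτ : IsTau τ) {B : ℝ} (hB : Pool.Agent.H471R3.GJ.IsHk (hk B)) {s : ℂ} (hs : 1 / 2 < s.re) :
    FD B s = cexp (DS (cf τ) lg s) := by
  obtain ⟨α, hα⟩ := exists_al (lm deltaForm) (psN 1)
  have hs' : 1 < (s + 1 / 2).re := by
    simp
    linarith
  have e1 : s + 6 - ((11 / 2 : ℝ) : ℂ) = s + 1 / 2 := by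
    push_cast
    ring
  unfold FD LD
  rw [e1, ls_eq hB rfl (nrm_delta B) dat_delta hs', euler dat_delta hα hs']
  unfold DS
  congr 1
  exact tsum_congr fun x => term_eq hτ hα x s

theorem FD_diff {B : ℝ} (hB : Pool.Agent.H471R3.GJ.IsHk (hk B)) : Differentiable ℂ (FD B) := by
  have h1 : Differentiable ℂ fun s : ℂ => s + 6 - ((11 / 2 : ℝ) : ℂ) := by fun_prop
  exact (ls_diff hB).comp h1

theorem FD_growth {B : ℝ} (hB : Pool.Agent.H471R3.GJ.IsHk (hk B)) :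
    ∃ (C : ℝ) (k : ℕ), ∀ s : ℂ, -1 < s.re → ‖FD B s‖ ≤ C * (1 + ‖s‖) ^ k := by
  obtain ⟨C, k, hC⟩ := ls_half hB rfl (-1)
  have hC0 : 0 ≤ C := by
    have h1 := hC 0 (by simp)
    have h2 : (1 + ‖(0 : ℂ)‖) ^ k = 1 := by simp
    rw [h2, mul_one] at h1
    exact (norm_nonneg _).trans h1
  refine ⟨C * (13 / 2) ^ k, k, fun s hs => ?_⟩
  have e1 : s + 6 - ((11 / 2 : ℝ) : ℂ) = s + ((1 / 2 : ℝ) : ℂ) := by
    push_cast
    ring
  have h1 : -1 ≤ (s + ((1 / 2 : ℝ) : ℂ)).re := by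
    rw [Complex.add_re, Complex.ofReal_re]
    linarith
  have h2 := hC _ h1
  have h3 : ‖s + ((1 / 2 : ℝ) : ℂ)‖ ≤ ‖s‖ + 1 / 2 := by
    refine (norm_add_le _ _).trans ?_
    rw [Complex.norm_real, Real.norm_of_nonneg (by norm_num)]
  have h4 : 1 + ‖s + ((1 / 2 : ℝ) : ℂ)‖ ≤ 13 / 2 * (1 + ‖s‖) := by nlinarith [norm_nonneg s]
  unfold FD LD
  rw [e1]
  calc _ ≤ C * (1 + ‖s + ((1 / 2 : ℝ) : ℂ)‖) ^ k := h2
    _ ≤ C * (13 / 2 * (1 + ‖s‖)) ^ k := mul_le_mul_of_nonneg_left (pow_le_pow_left₀ (by positivity) h4 k) hC0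
    _ = _ := by rw [mul_pow]; ring

theorem FD_zero_val (B : ℝ) : FD B 0 = (central : ℂ) := by
  unfold FD
  rw [zero_add, central_eq]

/-- no zeros on the real axis to the right of the centre -/
theorem FD_real {B : ℝ} {x : ℝ} (hx : 0 ≤ x) : FD B (x : ℂ) ≠ 0 := by
  unfold FD
  have e1 : (x : ℂ) + 6 = ((x + 6 : ℝ) : ℂ) := by push_cast; rfl
  rw [e1]
  intro h0
  have h1 := (LD_zero (by rw [Complex.ofReal_re]; linarith)).1 h0
  rw [mel_real] at h1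
  have h2 := mel_int_pos (x + 6)
  exact h2.ne' (by exact_mod_cast h1)

theorem rh_iff' (B : ℝ) : (∀ s : ℂ, 0 < s.re → FD B s ≠ 0) ↔ ∀ z : ℂ, Xi z = 0 → z.im = 0 := by
  rw [← rh_iff B]
  constructor
  · intro h s hs
    have := h (s - 6) (by simp; linarith)
    unfold FD at this
    rwa [sub_add_cancel] at this
  · intro h s hs
    exact h (s + 6) (by simp; linarith)

end Pool.Agent.Q212.ND
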