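import Pool.Agent.Q212.ND.CW

/-! Windows. -/

set_option autoImplicit false

open Complex Filter Topology Set MeasureTheory

namespace Pool.Agent.Q212.ND

open Pool.Agent.H128R3.JD.DelHk (hk)
open Pool.Agent.W189.TP (DS)
open Pool.Agent.TH949.TX (AA)
open Pool.Agent.Q18.W (Gd Mx AA_gro bm_log loglog_li LI.max0 win_mono cov)
open Pool.Agent.TH270.MS (LI BM Sh Cn)

variable {τ : ℕ → ℝ}

theorem fin_pp (y : ℝ) : {x : Nat.Primes × ℕ | (((x.1 : ℕ) : ℝ)) ^ (x.2 + 1) ≤ y}.Finite := by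
  have h1 : {p : Nat.Primes | ((p : ℕ) : ℝ) ≤ y}.Finite := by
    refine Set.Finite.of_finite_image (f := fun p : Nat.Primes => (p : ℕ)) ?_ (fun p _ q _ h => Subtype.ext h)
    refine (Set.finite_Iic ⌊y⌋₊).subset ?_
    rintro _ ⟨p, hp, rfl⟩
    exact Nat.le_floor hp
  refine (h1.prod (Set.finite_Iic ⌊y⌋₊)).subset fun x hx => ?_
  have hx' : (((x.1 : ℕ) : ℝ)) ^ (x.2 + 1) ≤ y := hx
  have h2 : (2 : ℝ) ≤ ((x.1 : ℕ) : ℝ) := by exact_mod_cast x.1.2.two_le
  have h3 : ((x.1 : ℕ) : ℝ) ≤ ((x.1 : ℕ) : ℝ) ^ (x.2 + 1) := le_self_pow₀ (by linarith) (by omega)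
  have h4 : (x.2 : ℝ) ≤ ((x.1 : ℕ) : ℝ) ^ (x.2 + 1) := by
    have h5 : (x.2 : ℝ) < 2 ^ x.2 := by exact_mod_cast Nat.lt_two_pow_self
    have h6 : (2 : ℝ) ^ x.2 ≤ ((x.1 : ℕ) : ℝ) ^ x.2 := pow_le_pow_left₀ (by norm_num) h2 _
    have h7 : ((x.1 : ℕ) : ℝ) ^ x.2 ≤ ((x.1 : ℕ) : ℝ) ^ (x.2 + 1) := pow_le_pow_right₀ (by linarith) (Nat.le_succ _)
    linarith
  exact ⟨h3.trans hx', Nat.le_floor (h4.trans hx')⟩

theorem lg_le_iff (x : Nat.Primes × ℕ) {y : ℝ} (hy : 0 < y) :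
    lg x ≤ Real.log y ↔ (((x.1 : ℕ) : ℝ)) ^ (x.2 + 1) ≤ y := by
  rw [Real.le_log_iff_exp_le hy, lg_exp]

theorem AA_PS (τ : ℕ → ℝ) {y : ℝ} (hy : 0 < y) : AA (cf τ) lg (Real.log y) = -Real.log (PS τ y) := by
  classical
  unfold PS AA
  rw [Real.log_exp, neg_neg]
  have hfin := fin_pp y
  have e1 : ∀ x : Nat.Primes × ℕ, (∑ᶠ (_ : (((x.1 : ℕ) : ℝ)) ^ (x.2 + 1) ≤ y),
      pw (τ x.1) (((x.1 : ℕ) : ℝ) ^ 11) (x.2 + 1) / (((x.2 : ℝ) + 1) * (((x.1 : ℕ) : ℝ) ^ 6) ^ (x.2 + 1))) =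
      if lg x ≤ Real.log y then cf τ x else 0 := by
    intro x
    rw [finsum_eq_if]
    exact if_congr (lg_le_iff x hy).symm rfl rfl
  rw [finsum_congr e1]
  have hs : (Function.support fun x : Nat.Primes × ℕ => if lg x ≤ Real.log y then cf τ x else 0).Finite := by
    refine hfin.subset fun x hx => ?_
    have h1 : (if lg x ≤ Real.log y then cf τ x else 0) ≠ 0 := hx
    by_contra hcon
    exact h1 (if_neg fun h => hcon ((lg_le_iff x hy).1 h))
  have h2 : ∑' x : Nat.Primes × ℕ, (if lg x ≤ Real.log y then cf τ x else 0) =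
      ∑ᶠ x : Nat.Primes × ℕ, if lg x ≤ Real.log y then cf τ x else 0 := tsum_eq_finsum hs
  rw [← h2]

theorem PS_pos (τ : ℕ → ℝ) (y : ℝ) : 0 < PS τ y := Real.exp_pos _

theorem gd (hτ : IsTau τ) {B : ℝ} (hB : Pool.Agent.H471R3.GJ.IsHk (hk B)) : Gd (cf τ) lg (FD B) where
  hL := lg_nonneg
  abs := fun t ht => cf_summable hτ (by linarith)
  exp := fun s hs => FD_exp hτ hB (by linarith)
  mer := fun s _ => ((FD_diff hB).analyticAt s).meromorphicAt
  mer0 := ((FD_diff hB).analyticAt 0).meromorphicAt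

theorem gd' (hτ : IsTau τ) {B : ℝ} (hB : Pool.Agent.H471R3.GJ.IsHk (hk B)) :
    Gd (fun x => -cf τ x) lg (fun s => (FD B s)⁻¹) where
  hL := lg_nonneg
  abs := fun t ht => by
    refine (cf_summable hτ (t := t) (by linarith)).congr fun x => ?_
    rw [abs_neg]
  exp := fun s hs => by
    show (FD B s)⁻¹ = _
    rw [FD_exp hτ hB (by linarith), ← Complex.exp_neg]
    congr 1
    unfold DS
    rw [← tsum_neg]
    refine tsum_congr fun x => ?_
    push_cast
    ring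
  mer := fun s _ => ((FD_diff hB).analyticAt s).meromorphicAt.inv
  mer0 := ((FD_diff hB).analyticAt 0).meromorphicAt.inv

theorem order_zero {B : ℝ} (hB : Pool.Agent.H471R3.GJ.IsHk (hk B)) {s : ℂ} : meromorphicOrderAt (FD B) s = 0 ↔ FD B s ≠ 0 := by
  have ha := (FD_diff hB).analyticAt s
  constructor
  · intro h h0
    rw [ha.meromorphicOrderAt_eq] at h
    have h2 : analyticOrderAt (FD B) s = 0 := by
      cases h3 : analyticOrderAt (FD B) s with
      | top => rw [h3] at h; exact absurd h (by simp)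
      | coe n =>
        rw [h3] at h
        have : ((n : ℤ) : WithTop ℤ) = 0 := h
        have h4 : n = 0 := by exact_mod_cast this
        rw [h4]
        rfl
    exact ha.analyticOrderAt_eq_zero.1 h2 h0
  · intro h0
    rw [ha.meromorphicOrderAt_eq, ha.analyticOrderAt_eq_zero.2 h0]
    rfl

theorem order_inv {B : ℝ} (hB : Pool.Agent.H471R3.GJ.IsHk (hk B)) (s : ℂ) :
    meromorphicOrderAt (fun s => (FD B s)⁻¹) s = 0 ↔ FD B s ≠ 0 := by
  have h1 : (fun s => (FD B s)⁻¹) = (FD B)⁻¹ := rfl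
  rw [h1, meromorphicOrderAt_inv, ← order_zero hB]
  cases h : meromorphicOrderAt (FD B) s with
  | top => simp
  | coe m =>
    constructor
    · intro h2
      have h3 : ((-m : ℤ) : WithTop ℤ) = 0 := h2
      have h4 : -m = 0 := by exact_mod_cast h3
      have h5 : m = 0 := by omega
      rw [h5]
      rfl
    · intro h2
      have h4 : m = 0 := by exact_mod_cast h2
      rw [h4]
      rfl

/-- integrability -/
theorem li_ps (hτ : IsTau τ) : LI fun y => Real.log (PS τ y) := by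
  have h1 := bm_log (AA_gro (d := cf τ) lg_nonneg (cf_summable hτ (t := 2) (by norm_num)))
  refine (Pool.Agent.Q18.W.BM.congr' (BM.neg h1) fun y hy => ?_).li
  have hy0 : 0 < y := (Real.exp_pos 1).trans_le hy
  rw [AA_PS τ hy0, neg_neg]

/-- `∫_{Y^(1-δ)}^Y G(y) dy/y ≤ B log Y` -/
def Mean (δ : ℝ) (G : ℝ → ℝ) (B Y : ℝ) : Prop := ∫ y in Y ^ (1 - δ)..Y, G y / y ≤ B * Real.log Y

theorem hK0 (τ : ℕ → ℝ) (y : ℝ) (hy : Real.exp 1 ≤ y) : AA (cf τ) lg (Real.log y) + Real.log (PS τ y) = 0 := by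
  rw [AA_PS τ ((Real.exp_pos 1).trans_le hy)]
  ring

theorem AA_neg (τ : ℕ → ℝ) (u : ℝ) : AA (fun x => -cf τ x) lg u = -AA (cf τ) lg u := by
  classical
  unfold AA
  rw [← tsum_neg]
  refine tsum_congr fun x => ?_
  split_ifs <;> simp

theorem hK0' (τ : ℕ → ℝ) (y : ℝ) (hy : Real.exp 1 ≤ y) :
    AA (fun x => -cf τ x) lg (Real.log y) + -Real.log (PS τ y) = 0 := by
  rw [AA_neg, AA_PS τ ((Real.exp_pos 1).trans_le hy)]
  ring

theorem li_neg {f : ℝ → ℝ} (h : LI f) : LI fun y => -f y := fun Y hY => (h Y hY).neg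

/-- upper bounds -/
theorem up (hτ : IsTau τ) {B₀ : ℝ} (hB : Pool.Agent.H471R3.GJ.IsHk (hk B₀)) {δ κ C B : ℝ} (h0 : 0 < δ) (h1 : δ < 1)
    (h : ∃ᶠ Y : ℝ in atTop, Mean δ (fun y => max (Real.log (PS τ y) - (κ * Real.log (Real.log y) + C)) 0) B Y) :
    ∀ s : ℂ, 0 < s.re → FD B₀ s ≠ 0 := by
  have h2 := (gd hτ hB).one (li_ps hτ) (K := 0) (fun y hy => by rw [hK0 τ y hy, abs_zero])
    (fun x hx => by rw [(order_zero hB).2 (FD_real hx.le)]) h0 h1 h
  exact fun s hs => (order_zero hB).1 (h2.1 s hs)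

/-- lower bounds -/
theorem dn (hτ : IsTau τ) {B₀ : ℝ} (hB : Pool.Agent.H471R3.GJ.IsHk (hk B₀)) {δ κ C B : ℝ} (h0 : 0 < δ) (h1 : δ < 1)
    (h : ∃ᶠ Y : ℝ in atTop, Mean δ (fun y => max (-Real.log (PS τ y) - (κ * Real.log (Real.log y) + C)) 0) B Y) :
    ∀ s : ℂ, 0 < s.re → FD B₀ s ≠ 0 := by
  have h2 := (gd' hτ hB).one (li_neg (li_ps hτ)) (K := 0) (fun y hy => by rw [hK0' τ y hy, abs_zero])
    (fun x hx => by rw [(order_inv hB _).2 (FD_real hx.le)]) h0 h1 h
  exact fun s hs => (order_inv hB s).1 (h2.1 s hs)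

theorem central_tendsto {B₀ : ℝ} (hB : Pool.Agent.H471R3.GJ.IsHk (hk B₀)) :
    Tendsto (fun s : ℂ => FD B₀ s / s ^ (0 : ℤ)) (𝓝[≠] 0) (𝓝 (central : ℂ)) := by
  have h1 : Tendsto (FD B₀) (𝓝[≠] 0) (𝓝 (FD B₀ 0)) := (FD_diff hB).continuous.continuousAt.tendsto.mono_left nhdsWithin_le_nhds
  rw [FD_zero_val] at h1
  refine h1.congr fun s => ?_
  rw [zpow_zero, div_one]

theorem norm_central : ‖(central : ℂ)‖ = central := by
  rw [Complex.norm_real, Real.norm_of_nonneg central_pos.le]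

/-- **In every window the products exceed the inverse of the central value in the mean.** -/
theorem om_up (hτ : IsTau τ) {B₀ : ℝ} (hB : Pool.Agent.H471R3.GJ.IsHk (hk B₀)) {δ A : ℝ} (h0 : 0 < δ) (h1 : δ < 1)
    (hA : central < A) : ∃ β : ℝ, 0 < β ∧ ∀ᶠ Y : ℝ in atTop, ¬ Mean δ (fun y => max (Real.log (A * PS τ y)) 0) β Y := by
  have hA0 := central_pos.trans hA
  by_contra hcon
  push Not at hcon
  have hl : ∀ y : ℝ, Real.log (A * PS τ y) = Real.log (PS τ y) - (0 * Real.log (Real.log y) + -Real.log A) := by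
    intro y
    rw [Real.log_mul hA0.ne' (PS_pos τ y).ne']
    ring
  have h2 : ∀ β : ℝ, 0 < β → ∃ᶠ Y : ℝ in atTop, Mean δ (fun y => max (Real.log (PS τ y) - (0 * Real.log (Real.log y) + -Real.log A)) 0) β Y := by
    intro β hβ
    have h3 := hcon β hβ
    simp only [hl] at h3
    simpa using h3
  have hz := up hτ hB h0 h1 (h2 1 one_pos)
  have h4 := (gd hτ hB).lead_low (li_ps hτ) (hK0 τ) (fun s hs => (order_zero hB).2 (hz s hs))
    (m := 0) (by
      have : (((0 : ℤ)) : WithTop ℤ) = 0 := rfl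
      rw [this]
      exact (order_zero hB).2 (by simpa using FD_real (B := B₀) le_rfl)) (central_tendsto hB) h0 h1 (C := -Real.log A)
    (fun β hβ => by
      have h5 := h2 β hβ
      simpa only [Mx, Mean, Int.cast_zero] using h5)
  rw [norm_central, Int.cast_zero, zero_mul, zero_sub, neg_neg, Real.exp_log hA0] at h4
  linarith

/-- **In every window the products are below the inverse of the central value in the mean.** -/
theorem om_dn (hτ : IsTau τ) {B₀ : ℝ} (hB : Pool.Agent.H471R3.GJ.IsHk (hk B₀)) {δ A : ℝ} (h0 : 0 < δ) (h1 : δ < 1)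
    (hA0 : 0 < A) (hA : A < central) :
    ∃ β : ℝ, 0 < β ∧ ∀ᶠ Y : ℝ in atTop, ¬ Mean δ (fun y => max (-Real.log (A * PS τ y)) 0) β Y := by
  by_contra hcon
  push Not at hcon
  have hl : ∀ y : ℝ, -Real.log (A * PS τ y) = -Real.log (PS τ y) - (0 * Real.log (Real.log y) + Real.log A) := by
    intro y
    rw [Real.log_mul hA0.ne' (PS_pos τ y).ne']
    ring
  have h2 : ∀ β : ℝ, 0 < β → ∃ᶠ Y : ℝ in atTop, Mean δ (fun y => max (-Real.log (PS τ y) - (0 * Real.log (Real.log y) + Real.log A)) 0) β Y := by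
    intro β hβ
    have h3 := hcon β hβ
    simp only [hl] at h3
    simpa using h3
  have hz := dn hτ hB h0 h1 (h2 1 one_pos)
  have h4 := (gd hτ hB).lead_up (li_ps hτ) (hK0 τ) (fun s hs => (order_zero hB).2 (hz s hs))
    (m := 0) (by
      have : (((0 : ℤ)) : WithTop ℤ) = 0 := rfl
      rw [this]
      exact (order_zero hB).2 (by simpa using FD_real (B := B₀) le_rfl)) (central_tendsto hB) h0 h1 (C := -Real.log A)
    (fun β hβ => by
      have h5 := h2 β hβ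
      have e : ∀ y : ℝ, ((0 : ℤ) : ℝ) * Real.log (Real.log y) + -Real.log A - Real.log (PS τ y) =
          -Real.log (PS τ y) - (0 * Real.log (Real.log y) + Real.log A) := fun y => by
        rw [Int.cast_zero]
        ring
      simpa only [Mx, Mean, e] using h5)
  rw [norm_central, Int.cast_zero, zero_mul, zero_sub, neg_neg, Real.exp_log hA0] at h4
  linarith

/-- the data as sequences -/
theorem exists_dat (hτ : IsTau τ) : ∃ lam c : ℕ → ℝ, Pool.Agent.TH942.LS.Dat lam c (Real.log 2) 1 ∧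
    (∀ s : ℂ, Pool.Agent.TH942.SL.DD lam c s = -DS (cf τ) lg s) ∧
    ∀ u : ℝ, Sh lam c u = Real.log (PS τ (Real.exp u)) := by
  obtain ⟨D0⟩ : Nonempty (Denumerable (Nat.Primes × ℕ)) := nonempty_denumerable _
  obtain ⟨e⟩ : Nonempty (ℕ ≃ Nat.Primes × ℕ) := ⟨(Denumerable.eqv (Nat.Primes × ℕ)).symm⟩
  refine ⟨fun n => lg (e n), fun n => -cf τ (e n), ⟨Real.log_pos (by norm_num), one_pos, fun n => lg_ge _, ?_⟩, ?_, ?_⟩
  · have h1 := (e.summable_iff).2 (cf_summable hτ (t := 1) (by norm_num))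
    refine h1.congr fun n => ?_
    simp only [Function.comp, abs_neg]
  · intro s
    unfold Pool.Agent.TH942.SL.DD DS
    rw [← tsum_neg, ← e.tsum_eq]
    refine tsum_congr fun n => ?_
    push_cast
    ring
  · intro u
    have h1 := AA_PS τ (Real.exp_pos u)
    rw [Real.log_exp] at h1
    rw [← neg_neg (Real.log (PS τ (Real.exp u))), ← h1, ← AA_neg]
    classical
    unfold Sh AA
    rw [← e.tsum_eq]

theorem sh_eq {lam c : ℕ → ℝ} (h : ∀ u : ℝ, Sh lam c u = Real.log (PS τ (Real.exp u))) (u : ℝ) :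
    Sh lam c u - 0 * Real.log u - -Real.log central = Real.log (central * PS τ (Real.exp u)) := by
  rw [h, Real.log_mul central_pos.ne' (PS_pos _ _).ne']
  ring

/-- the mean square theorem -/
theorem l2 (hτ : IsTau τ) {B₀ : ℝ} (hB : Pool.Agent.H471R3.GJ.IsHk (hk B₀)) (h : ∀ s : ℂ, 0 < s.re → FD B₀ s ≠ 0) :
    IntegrableOn (fun u : ℝ => Real.log (central * PS τ (Real.exp u)) ^ 2) (Ioi 1) := by
  obtain ⟨lam, c, D, hDD, hSh⟩ := exists_dat hτ
  obtain ⟨C, k, hC⟩ := FD_growth hB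
  have E : Cn lam c (Real.log 2) 1 (FD B₀) (FD B₀) 0 0 k 1 C := by
    refine ⟨D, one_pos, fun s _ => (FD_diff hB) s, fun s hs => hC s hs, fun s hs => ?_, (FD_diff hB).analyticAt 0, ?_, ?_⟩
    · rw [pow_zero, one_mul, hDD, neg_neg, FD_exp hτ hB (by linarith)]
    · simpa using FD_real (B := B₀) le_rfl
    · filter_upwards with s
      rw [pow_zero, one_mul]
  obtain ⟨q, hq, hI⟩ := E.sq h (r := 0) (by norm_num)
  rw [FD_zero_val, zero_mul, zero_sub] at hq
  have hq1 : central = Real.exp (-q) := by exact_mod_cast hq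
  have hq2 : q = -Real.log central := by rw [hq1, Real.log_exp, neg_neg]
  rw [hq2] at hI
  simpa only [sh_eq hSh] using hI

theorem sq_small (hτ : IsTau τ) (h : IntegrableOn (fun u : ℝ => Real.log (central * PS τ (Real.exp u)) ^ 2) (Ioi 1)) :
    Tendsto (fun T : ℝ => (∫ u in (1 : ℝ)..T, |Real.log (central * PS τ (Real.exp u))|) / T) atTop (𝓝 0) := by
  obtain ⟨lam, c, D, -, hSh⟩ := exists_dat hτ
  have h3 := Pool.Agent.TH270.MS.small_of_sq D (r := 0) (q := -Real.log central) (by simpa only [sh_eq hSh] using h)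
  simpa only [sh_eq hSh] using h3

/-- windows -/
theorem windows {G : ℝ → ℝ} (hG0 : ∀ y, 0 ≤ G y) (hG : ∀ T : ℝ, IntegrableOn (fun u : ℝ => G (Real.exp u)) (Icc 1 T))
    (h : Tendsto (fun T : ℝ => (∫ u in (1 : ℝ)..T, G (Real.exp u)) / T) atTop (𝓝 0)) {δ : ℝ} (h0 : 0 < δ) (h1 : δ < 1)
    {ε : ℝ} (hε : 0 < ε) : ∀ᶠ Y : ℝ in atTop, Mean δ G ε Y := by
  have h2 : ∀ᶠ T : ℝ in atTop, (∫ u in (1 : ℝ)..T, G (Real.exp u)) / T < ε := h.eventually_lt_const hε
  have h3 := Real.tendsto_log_atTop.eventually (h2.and (eventually_ge_atTop (1 / (1 - δ))))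
  filter_upwards [h3, eventually_gt_atTop 1] with Y hY hY1
  obtain ⟨h4, h5⟩ := hY
  have hd : 0 < 1 - δ := by linarith
  have hl : 0 < Real.log Y := Real.log_pos hY1
  have h6 : 1 ≤ (1 - δ) * Real.log Y := by
    rw [div_le_iff₀ hd] at h5
    linarith
  have h7 : 1 ≤ Real.log Y := by nlinarith
  unfold Mean
  rw [cov h0 hY1]
  rw [div_lt_iff₀ hl, intervalIntegral.integral_of_le h7, ← integral_Icc_eq_integral_Ioc] at h4
  refine le_trans ?_ h4.le
  exact setIntegral_mono_set (hG _) (Eventually.of_forall fun u => hG0 _)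
    (Eventually.of_forall (Icc_subset_Icc_left h6))

theorem log_exp_eq (τ : ℕ → ℝ) (u : ℝ) : Real.log (central * PS τ (Real.exp u)) = Real.log central - AA (cf τ) lg u := by
  have h1 := AA_PS τ (Real.exp_pos u)
  rw [Real.log_exp] at h1
  rw [h1, Real.log_mul central_pos.ne' (PS_pos _ _).ne']
  ring

theorem int_log (hτ : IsTau τ) (T : ℝ) : IntegrableOn (fun u : ℝ => |Real.log (central * PS τ (Real.exp u))|) (Icc 1 T) := by
  have hg := AA_gro (d := cf τ) lg_nonneg (cf_summable hτ (t := 2) (by norm_num))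
  obtain ⟨M, hM⟩ : ∃ M, M = ∑' i, |cf τ i| * Real.exp (-(2 * lg i)) := ⟨_, rfl⟩
  rw [← hM] at hg
  have h1 : IntegrableOn (fun _ : ℝ => |Real.log central| + M * Real.exp (2 * T)) (Icc 1 T) := integrableOn_const (by simp)
  refine h1.mono' ?_ ?_
  · have h2 : Measurable fun u : ℝ => |Real.log (central * PS τ (Real.exp u))| := by
      simp only [log_exp_eq]
      exact (measurable_const.sub hg.meas).abs
    exact h2.aestronglyMeasurable
  · filter_upwards [ae_restrict_mem measurableSet_Icc] with u hu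
    rw [Real.norm_eq_abs, abs_abs, log_exp_eq]
    have h3 := hg.le u (by linarith [hu.1])
    have h4 : M * Real.exp (2 * u) ≤ M * Real.exp (2 * T) :=
      mul_le_mul_of_nonneg_left (Real.exp_le_exp.2 (by linarith [hu.2])) hg.pos
    calc _ ≤ |Real.log central| + |AA (cf τ) lg u| := abs_sub _ _
      _ ≤ _ := by linarith

theorem lim_mean (hτ : IsTau τ) (h : IntegrableOn (fun u : ℝ => Real.log (central * PS τ (Real.exp u)) ^ 2) (Ioi 1))
    {δ : ℝ} (h0 : 0 < δ) (h1 : δ < 1) {ε : ℝ} (hε : 0 < ε) :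
    ∀ᶠ Y : ℝ in atTop, Mean δ (fun y => |Real.log (central * PS τ y)|) ε Y :=
  windows (fun _ => abs_nonneg _) (int_log hτ) (sq_small hτ h) h0 h1 hε

theorem li_central (hτ : IsTau τ) : LI fun y => Real.log (central * PS τ y) := by
  have e : (fun y => Real.log (central * PS τ y)) = fun y => Real.log (PS τ y) - (0 * Real.log (Real.log y) + -Real.log central) := by
    funext y
    rw [Real.log_mul central_pos.ne' (PS_pos _ _).ne']
    ring
  rw [e]
  exact fun Y hY => (li_ps hτ Y hY).sub (loglog_li 0 _ Y hY)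

/-- monotonicity of the means -/
theorem mean_mono {f g : ℝ → ℝ} (hf : LI f) (hg : LI g) (h : ∀ y : ℝ, Real.exp 1 ≤ y → f y ≤ g y) {δ : ℝ}
    (h0 : 0 < δ) (h1 : δ < 1) {B : ℝ} (hB : ∃ᶠ Y : ℝ in atTop, Mean δ g B Y) : ∃ᶠ Y : ℝ in atTop, Mean δ f B Y :=
  (hB.and_eventually (win_mono hf hg h h0 h1)).mono fun _ hY => hY.2.trans hY.1

theorem up_of (hτ : IsTau τ) {δ : ℝ} (h0 : 0 < δ) (h1 : δ < 1) {B : ℝ}
    (h : ∃ᶠ Y : ℝ in atTop, Mean δ (fun y => |Real.log (central * PS τ y)|) B Y) :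
    ∃ᶠ Y : ℝ in atTop, Mean δ (fun y => max (Real.log (PS τ y) - (0 * Real.log (Real.log y) + -Real.log central)) 0) B Y := by
  refine mean_mono (LI.max0 fun Y hY => (li_ps hτ Y hY).sub (loglog_li 0 _ Y hY)) (li_central hτ).abs (fun y _ => ?_) h0 h1 h
  rw [Real.log_mul central_pos.ne' (PS_pos _ _).ne']
  refine max_le ?_ (abs_nonneg _)
  refine le_trans (le_of_eq ?_) (le_abs_self _)
  ring

theorem dn_of (hτ : IsTau τ) {δ : ℝ} (h0 : 0 < δ) (h1 : δ < 1) {B : ℝ}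
    (h : ∃ᶠ Y : ℝ in atTop, Mean δ (fun y => |Real.log (central * PS τ y)|) B Y) :
    ∃ᶠ Y : ℝ in atTop, Mean δ (fun y => max (-Real.log (PS τ y) - (0 * Real.log (Real.log y) + Real.log central)) 0) B Y := by
  refine mean_mono (LI.max0 fun Y hY => (li_neg (li_ps hτ) Y hY).sub (loglog_li 0 _ Y hY)) (li_central hτ).abs (fun y _ => ?_) h0 h1 h
  rw [Real.log_mul central_pos.ne' (PS_pos _ _).ne']
  refine max_le ?_ (abs_nonneg _)
  refine le_trans (le_of_eq ?_) (neg_le_abs _)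
  ring

end Pool.Agent.Q212.ND
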