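import Pool.Agent.Q212.ND.Std

/-! The Euler product over the primes and growth in half planes. -/

set_option autoImplicit false

open Complex Filter Topology Set

namespace Pool.Agent.Q212.ND

open Pool.Agent.H471R3.GJ (Hk IsHk)

variable {H : Hk} {lam ps : ℕ → ℂ} {α : Nat.Primes → Fin 2 → ℂ}

/-- **The Euler product.** -/
theorem euler_prod (h : Dat lam ps) {s : ℂ} (hs : 1 < s.re) :
    HasProd (fun p : Nat.Primes => (1 - lam p * ((p : ℕ) : ℂ) ^ (-s) + ps p * (((p : ℕ) : ℂ) ^ (-s)) ^ 2)⁻¹)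
      (∑' n : ℕ, lam n * (n : ℂ) ^ (-s)) := by
  have hn : ∀ n : ℕ, ‖lam n * (n : ℂ) ^ (-s)‖ = ‖lam n‖ * (n : ℝ) ^ (-s.re) := by
    intro n
    rcases Nat.eq_zero_or_pos n with rfl | hn
    · rw [h.zero]
      simp
    · rw [norm_mul, Complex.norm_natCast_cpow_of_pos hn, Complex.neg_re]
  have hsum : Summable fun n : ℕ => ‖lam n * (n : ℂ) ^ (-s)‖ := (summ1 h hs).congr fun n => (hn n).symm
  have hprod := EulerProduct.eulerProduct_hasProd (f := fun n : ℕ => lam n * (n : ℂ) ^ (-s))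
    (by simp [h.one]) (fun {m n} hmn => by
      rw [h.mul m n hmn, Nat.cast_mul, Complex.natCast_mul_natCast_cpow]
      ring) hsum (by simp [h.zero])
  refine hprod.congr_fun fun p => ?_
  have hpe : ∀ e : ℕ, (((p : ℕ) ^ e : ℕ) : ℂ) ^ (-s) = (((p : ℕ) : ℂ) ^ (-s)) ^ e := by
    intro e
    rw [Nat.cast_pow, ← Complex.natCast_cpow_natCast_mul, ← Complex.cpow_nat_mul, mul_comm]
    try rfl
  have hse : Summable fun e : ℕ => lam ((p : ℕ) ^ e) * (((p : ℕ) : ℂ) ^ (-s)) ^ e := by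
    have h5 := hsum.of_norm.comp_injective (Nat.pow_right_injective p.2.two_le)
    refine h5.congr fun e => ?_
    simp only [Function.comp]
    rw [hpe]
  have h6 := loc_sum (b := fun e => lam ((p : ℕ) ^ e)) (l := lam p) (ψ := ps p) (by simp [h.one]) (by simp)
    (fun j => h.pow p j p.2) hse
  simp only [hpe]
  exact (eq_inv_of_mul_eq_one_left h6).symm

theorem ls_right (h : IsHk H) (hp : H.p = 1) :
    ∃ C : ℝ, 0 ≤ C ∧ ∀ s : ℂ, H.β + 2 ≤ s.re + kap' H → ‖Ls H s‖ ≤ C := by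
  have hs0 := b_summable h (x := H.β + 2) (by linarith)
  refine ⟨∑' m : ℕ, |H.b (m + 1)| * ((m + 1 : ℕ) : ℝ) ^ (-(H.β + 2)), tsum_nonneg fun m => by positivity, fun s hs => ?_⟩
  rw [ls_far h hp (by linarith)]
  refine tsum_of_norm_bounded hs0.hasSum fun m => ?_
  have h1 : (1 : ℝ) ≤ ((m + 1 : ℕ) : ℝ) := by
    push_cast
    have : (0 : ℝ) ≤ m := Nat.cast_nonneg m
    linarith
  rw [norm_mul, Complex.norm_real, Real.norm_eq_abs, Complex.norm_natCast_cpow_of_pos (Nat.succ_pos m), Complex.neg_re]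
  refine mul_le_mul_of_nonneg_left ?_ (abs_nonneg _)
  refine Real.rpow_le_rpow_of_exponent_le h1 ?_
  have : (s + (kap' H : ℂ)).re = s.re + kap' H := by simp
  rw [this]
  linarith

/-- polynomial growth in every right half plane -/
theorem ls_half (h : IsHk H) (hp : H.p = 1) (a : ℝ) :
    ∃ (C : ℝ) (k : ℕ), ∀ s : ℂ, a ≤ s.re → ‖Ls H s‖ ≤ C * (1 + ‖s‖) ^ k := by
  obtain ⟨C, hC0, hC⟩ := ls_right h hp
  obtain ⟨D, A, hD⟩ := ls_growth h hp a (H.β + 2 - kap' H)
  refine ⟨C + |D|, ⌈A⌉₊, fun s hs => ?_⟩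
  have h1 : (1 : ℝ) ≤ 1 + ‖s‖ := by linarith [norm_nonneg s]
  have h2 : (1 : ℝ) ≤ (1 + ‖s‖) ^ ⌈A⌉₊ := one_le_pow₀ h1
  rcases le_total (H.β + 2) (s.re + kap' H) with h3 | h3
  · calc ‖Ls H s‖ ≤ C := hC s h3
      _ ≤ C + |D| := by linarith [abs_nonneg D]
      _ ≤ _ := le_mul_of_one_le_right (by positivity) h2
  · have h4 := hD s hs (by linarith)
    have h5 : (1 + |s.im|) ^ A ≤ (1 + ‖s‖) ^ ⌈A⌉₊ := by
      have h6 : (1 : ℝ) ≤ 1 + |s.im| := by linarith [abs_nonneg s.im]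
      calc (1 + |s.im|) ^ A ≤ (1 + |s.im|) ^ (⌈A⌉₊ : ℝ) := Real.rpow_le_rpow_of_exponent_le h6 (Nat.le_ceil A)
        _ = (1 + |s.im|) ^ ⌈A⌉₊ := Real.rpow_natCast _ _
        _ ≤ _ := pow_le_pow_left₀ (by linarith) (by linarith [Complex.abs_im_le_norm s]) _
    calc ‖Ls H s‖ ≤ D * (1 + |s.im|) ^ A := h4
      _ ≤ |D| * (1 + |s.im|) ^ A := mul_le_mul_of_nonneg_right (le_abs_self D) (by positivity)
      _ ≤ |D| * (1 + ‖s‖) ^ ⌈A⌉₊ := mul_le_mul_of_nonneg_left h5 (abs_nonneg D)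
      _ ≤ _ := mul_le_mul_of_nonneg_right (by linarith) (by positivity)

/-- roots of a quadratic polynomial without distinct real roots -/
theorem root_abs {x : ℂ} {t Q : ℝ} (hQ : 0 ≤ Q) (ht : t ^ 2 ≤ 4 * Q) (hx : x ^ 2 - t * x + Q = 0) : ‖x‖ = √Q := by
  obtain ⟨a, b⟩ := x
  have h1 := congrArg Complex.re hx
  have h2 := congrArg Complex.im hx
  simp only [pow_two, Complex.add_re, Complex.sub_re, Complex.mul_re, Complex.ofReal_re, Complex.ofReal_im,
    Complex.add_im, Complex.sub_im, Complex.mul_im, Complex.zero_re, Complex.zero_im] at h1 h2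
  have h3 : b * (2 * a - t) = 0 := by linarith
  have h4 : a * a + b * b = Q := by
    rcases mul_eq_zero.1 h3 with h5 | h5
    · subst h5
      have h6 : (2 * a - t) ^ 2 = t ^ 2 - 4 * Q := by nlinarith
      have h7 : (2 * a - t) ^ 2 = 0 := le_antisymm (by linarith) (sq_nonneg _)
      have h8 : t = 2 * a := by
        have := pow_eq_zero_iff (two_ne_zero) |>.1 h7
        linarith
      subst h8
      nlinarith
    · have h8 : t = 2 * a := by linarith
      subst h8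
      nlinarith
  have h5 : ‖(⟨a, b⟩ : ℂ)‖ = √(a * a + b * b) := by
    rw [Complex.norm_def, Complex.normSq_apply]
  rw [h5, h4]

/-- power sums of the roots -/
def pw (t Q : ℝ) : ℕ → ℝ
  | 0 => 2
  | 1 => t
  | k + 2 => t * pw t Q (k + 1) - Q * pw t Q k

theorem pw_eq {x y : ℂ} {t Q : ℝ} (h1 : x + y = t) (h2 : x * y = Q) (k : ℕ) : x ^ k + y ^ k = (pw t Q k : ℂ) := by
  induction k using Nat.strong_induction_on with
  | _ k ih =>
    match k with
    | 0 =>
      simp [pw]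
      norm_num
    | 1 => simp [pw, h1]
    | k + 2 =>
      have h3 : x ^ (k + 2) + y ^ (k + 2) =
          (x + y) * (x ^ (k + 1) + y ^ (k + 1)) - (x * y) * (x ^ k + y ^ k) := by ring
      rw [h3, ih (k + 1) (by omega), ih k (by omega), h1, h2]
      simp [pw]

end Pool.Agent.Q212.ND
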