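import Mathlib

/-! Local factors of degree two: sums over prime powers, roots, logarithms. -/

set_option autoImplicit false

open Complex Filter Topology

namespace Pool.Agent.Q212.ND

/-- the generating function of a sequence with a recursion of length two -/
theorem loc_sum {l ψ : ℂ} {b : ℕ → ℂ} (h0 : b 0 = 1) (h1 : b 1 = l)
    (hr : ∀ j, b (j + 2) = l * b (j + 1) - ψ * b j) {z : ℂ} (hs : Summable fun j => b j * z ^ j) :
    (∑' j, b j * z ^ j) * (1 - l * z + ψ * z ^ 2) = 1 := by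
  obtain ⟨S, hS⟩ : ∃ S, S = ∑' j, b j * z ^ j := ⟨_, rfl⟩
  have e1 : S = b 0 * z ^ 0 + ∑' j, b (j + 1) * z ^ (j + 1) := by
    rw [hS]; exact hs.tsum_eq_zero_add
  have hs1 : Summable fun j => b (j + 1) * z ^ (j + 1) := (summable_nat_add_iff (f := fun j => b j * z ^ j) 1).2 hs
  have e2 : ∑' j, b (j + 1) * z ^ (j + 1) = b 1 * z ^ 1 + ∑' j, b (j + 2) * z ^ (j + 2) := hs1.tsum_eq_zero_add
  have e3 : ∑' j, b (j + 2) * z ^ (j + 2) = l * z * (∑' j, b (j + 1) * z ^ (j + 1)) - ψ * z ^ 2 * S := by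
    rw [hS, ← tsum_mul_left, ← tsum_mul_left, ← (hs1.mul_left _).tsum_sub (hs.mul_left _)]
    refine tsum_congr fun j => ?_
    rw [hr]
    ring
  rw [h0, pow_zero, mul_one] at e1
  rw [h1, pow_one, e3] at e2
  rw [← hS]
  have e4 : ∑' j, b (j + 1) * z ^ (j + 1) = S - 1 := by rw [e1]; ring
  rw [e4] at e2
  linear_combination e2

/-- the roots are small -/
theorem root_le {l ψ : ℂ} {b : ℕ → ℂ} (h0 : b 0 = 1) (h1 : b 1 = l)
    (hr : ∀ j, b (j + 2) = l * b (j + 1) - ψ * b j) {C R : ℝ} (hR : 0 < R) (hb : ∀ j, ‖b j‖ ≤ C * R ^ j)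
    {x y : ℂ} (hx : x + y = l) (hy : x * y = ψ) : ‖x‖ ≤ R := by
  by_contra hcon
  rw [not_le] at hcon
  have hx0 : x ≠ 0 := by
    rintro rfl
    rw [norm_zero] at hcon
    linarith
  have hxn : 0 < ‖x‖ := norm_pos_iff.2 hx0
  have hq : R / ‖x‖ < 1 := (div_lt_one hxn).2 hcon
  have hs : Summable fun j => b j * (x⁻¹) ^ j := by
    refine Summable.of_norm_bounded (g := fun j => C * (R / ‖x‖) ^ j)
      ((summable_geometric_of_lt_one (by positivity) hq).mul_left C) fun j => ?_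
    rw [norm_mul, norm_pow, norm_inv, div_pow, inv_pow, div_eq_mul_inv, ← mul_assoc]
    exact mul_le_mul_of_nonneg_right (hb j) (by positivity)
  have h2 := loc_sum h0 h1 hr hs
  have h3 : 1 - l * x⁻¹ + ψ * x⁻¹ ^ 2 = 0 := by
    rw [← hx, ← hy]
    field_simp
    ring
  rw [h3, mul_zero] at h2
  exact zero_ne_one h2

/-- powers of the roots -/
noncomputable def tr (α : Fin 2 → ℂ) (k : ℕ) : ℂ := ∑ j, α j ^ k

theorem tr_one (α : Fin 2 → ℂ) : tr α 1 = α 0 + α 1 := by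
  unfold tr
  rw [Fin.sum_univ_two, pow_one, pow_one]

/-- the bound for the power sums -/
theorem tr_le {α : Fin 2 → ℂ} {l ψ : ℂ} (hs : α 0 + α 1 = l) (hp : α 0 * α 1 = ψ) (hψ : ‖ψ‖ ≤ 1) {R : ℝ} (hR : 0 ≤ R)
    (hα : ∀ j, ‖α j‖ ≤ R) (k : ℕ) : ‖tr α (k + 2)‖ ≤ 2 * (‖l‖ + 1) ^ 2 * R ^ k := by
  have hl := norm_nonneg l
  have key : ∀ x y : ℂ, x + y = l → x * y = ψ → ‖x‖ ≤ ‖l‖ + 1 := by
    intro x y h1 h2
    by_contra hcon
    rw [not_le] at hcon
    have h3 : ‖x‖ * ‖y‖ ≤ 1 := by rw [← norm_mul, h2]; exact hψ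
    have h4 : ‖x‖ ≤ ‖l‖ + ‖y‖ := by
      calc ‖x‖ = ‖l - y‖ := by rw [← h1, add_sub_cancel_right]
        _ ≤ _ := norm_sub_le _ _
    have h5 : 1 < ‖y‖ := by linarith
    nlinarith
  have h0 : ∀ j, ‖α j‖ ≤ ‖l‖ + 1 := by
    intro j
    fin_cases j
    · exact key _ _ hs hp
    · exact key _ _ (by rw [← hs]; exact add_comm _ _) (by rw [← hp]; exact mul_comm _ _)
  unfold tr
  refine (norm_sum_le _ _).trans ?_
  calc ∑ j, ‖α j ^ (k + 2)‖ ≤ ∑ _j : Fin 2, (‖l‖ + 1) ^ 2 * R ^ k := by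
        refine Finset.sum_le_sum fun j _ => ?_
        rw [norm_pow, pow_add, mul_comm]
        exact mul_le_mul (pow_le_pow_left₀ (norm_nonneg _) (h0 j) 2) (pow_le_pow_left₀ (norm_nonneg _) (hα j) k)
          (by positivity) (by positivity)
    _ = _ := by
        rw [Finset.sum_const, Finset.card_univ, Fintype.card_fin, nsmul_eq_mul]
        push_cast
        ring

/-- one logarithm -/
theorem log_one {w : ℂ} (hw : ‖w‖ < 1) :
    (Summable fun k : ℕ => w ^ (k + 1) / ((k : ℂ) + 1)) ∧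
      cexp (∑' k : ℕ, w ^ (k + 1) / ((k : ℂ) + 1)) = (1 - w)⁻¹ := by
  have h1 := Complex.hasSum_taylorSeries_neg_log hw
  have h2 := (hasSum_nat_add_iff' 1).2 h1
  simp only [Finset.range_one, Finset.sum_singleton, pow_zero, Nat.cast_zero, div_zero, sub_zero] at h2
  have h3 : HasSum (fun k : ℕ => w ^ (k + 1) / ((k : ℂ) + 1)) (-Complex.log (1 - w)) := by
    refine h2.congr_fun fun k => ?_
    push_cast
    rfl
  have hne : 1 - w ≠ 0 := by
    intro h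
    have h4 : w = 1 := by linear_combination -h
    rw [h4, norm_one] at hw
    exact lt_irrefl _ hw
  refine ⟨h3.summable, ?_⟩
  rw [h3.tsum_eq, Complex.exp_neg, Complex.exp_log hne]

/-- the logarithm of the local factor -/
theorem log_two {α : Fin 2 → ℂ} {z : ℂ} (hz : ∀ j, ‖α j * z‖ < 1) :
    (Summable fun k : ℕ => tr α (k + 1) / ((k : ℂ) + 1) * z ^ (k + 1)) ∧
      cexp (∑' k : ℕ, tr α (k + 1) / ((k : ℂ) + 1) * z ^ (k + 1)) = ((1 - α 0 * z) * (1 - α 1 * z))⁻¹ := by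
  obtain ⟨a1, a2⟩ := log_one (hz 0)
  obtain ⟨b1, b2⟩ := log_one (hz 1)
  have e : (fun k : ℕ => tr α (k + 1) / ((k : ℂ) + 1) * z ^ (k + 1)) = fun k : ℕ =>
      (α 0 * z) ^ (k + 1) / ((k : ℂ) + 1) + (α 1 * z) ^ (k + 1) / ((k : ℂ) + 1) := by
    funext k
    unfold tr
    rw [Fin.sum_univ_two, mul_pow, mul_pow]
    ring
  rw [e]
  refine ⟨a1.add b1, ?_⟩
  rw [a1.tsum_add b1, Complex.exp_add, a2, b2, mul_inv]

end Pool.Agent.Q212.ND
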