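import Mathlib
import Pool.Agent.Q212.ND.Loc

/-! Euler products of degree two: absolute convergence and logarithm. -/

set_option autoImplicit false

open Complex Filter Topology

namespace Pool.Agent.Q212.ND

/-- multiplicative coefficients of degree two with a mean square bound -/
structure Dat (lam ps : ℕ → ℂ) : Prop where
  zero : lam 0 = 0
  one : lam 1 = 1
  mul : ∀ m n : ℕ, Nat.Coprime m n → lam (m * n) = lam m * lam n
  pow : ∀ p j : ℕ, p.Prime → lam (p ^ (j + 2)) = lam p * lam (p ^ (j + 1)) - ps p * lam (p ^ j)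
  ps_le : ∀ p : ℕ, ‖ps p‖ ≤ 1
  sq : ∀ σ : ℝ, 1 < σ → Summable fun n : ℕ => ‖lam n‖ ^ 2 * (n : ℝ) ^ (-σ)

/-- the roots -/
def IsAl (lam ps : ℕ → ℂ) (α : Nat.Primes → Fin 2 → ℂ) : Prop :=
  ∀ p : Nat.Primes, α p 0 + α p 1 = lam p ∧ α p 0 * α p 1 = ps p

theorem exists_al (lam ps : ℕ → ℂ) : ∃ α : Nat.Primes → Fin 2 → ℂ, IsAl lam ps α := by
  have h : ∀ p : Nat.Primes, ∃ a : Fin 2 → ℂ, a 0 + a 1 = lam p ∧ a 0 * a 1 = ps p := by
    intro p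
    obtain ⟨s, hs⟩ := IsAlgClosed.exists_pow_nat_eq (lam p ^ 2 - 4 * ps p) two_pos
    refine ⟨![(lam p + s) / 2, (lam p - s) / 2], ?_, ?_⟩
    · simp only [Matrix.cons_val_zero, Matrix.cons_val_one]
      ring
    · simp only [Matrix.cons_val_zero, Matrix.cons_val_one]
      linear_combination (-(1 : ℂ) / 4) * hs
  choose α hα using h
  exact ⟨α, hα⟩

variable {lam ps : ℕ → ℂ} {α : Nat.Primes → Fin 2 → ℂ}

theorem al_le (h : Dat lam ps) (hα : IsAl lam ps α) (p : Nat.Primes) (j : Fin 2) :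
    ‖α p j‖ ≤ ((p : ℕ) : ℝ) ^ (1 / 2 : ℝ) := by
  have hp0 : (0 : ℝ) < (p : ℕ) := by exact_mod_cast p.2.pos
  have key : ∀ σ : ℝ, 1 < σ → ‖α p j‖ ≤ ((p : ℕ) : ℝ) ^ (σ / 2) := by
    intro σ hσ
    have hs := h.sq σ hσ
    obtain ⟨S, hS⟩ : ∃ S, S = ∑' n : ℕ, ‖lam n‖ ^ 2 * (n : ℝ) ^ (-σ) := ⟨_, rfl⟩
    have hb : ∀ i : ℕ, ‖lam ((p : ℕ) ^ i)‖ ≤ √S * (((p : ℕ) : ℝ) ^ (σ / 2)) ^ i := by
      intro i
      have h1 : ‖lam ((p : ℕ) ^ i)‖ ^ 2 * (((p : ℕ) ^ i : ℕ) : ℝ) ^ (-σ) ≤ S := by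
        rw [hS]
        exact hs.le_tsum ((p : ℕ) ^ i) fun n _ => by positivity
      have h2 : (((p : ℕ) ^ i : ℕ) : ℝ) ^ (-σ) = ((((p : ℕ) : ℝ) ^ (σ / 2)) ^ i) ^ (-2 : ℝ) := by
        rw [Nat.cast_pow, ← Real.rpow_natCast, ← Real.rpow_natCast, ← Real.rpow_mul hp0.le, ← Real.rpow_mul hp0.le,
          ← Real.rpow_mul hp0.le]
        congr 1
        ring
      obtain ⟨R, hR⟩ : ∃ R : ℝ, R = (((p : ℕ) : ℝ) ^ (σ / 2)) ^ i := ⟨_, rfl⟩
      have hR0 : 0 < R := by rw [hR]; positivity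
      rw [h2, ← hR, Real.rpow_neg hR0.le, Real.rpow_two] at h1
      rw [← hR]
      have h3 : ‖lam ((p : ℕ) ^ i)‖ ^ 2 ≤ S * R ^ 2 := by
        rwa [← div_eq_mul_inv, div_le_iff₀ (by positivity)] at h1
      have hS0 : 0 ≤ S := by rw [hS]; exact tsum_nonneg fun n => by positivity
      calc ‖lam ((p : ℕ) ^ i)‖ = √(‖lam ((p : ℕ) ^ i)‖ ^ 2) := (Real.sqrt_sq (norm_nonneg _)).symm
        _ ≤ √(S * R ^ 2) := Real.sqrt_le_sqrt h3
        _ = √S * R := by rw [Real.sqrt_mul hS0, Real.sqrt_sq hR0.le]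
    have hpow : ∀ i, lam ((p : ℕ) ^ (i + 2)) = lam p * lam ((p : ℕ) ^ (i + 1)) - ps p * lam ((p : ℕ) ^ i) :=
      fun i => h.pow p i p.2
    have h0 : lam ((p : ℕ) ^ 0) = 1 := by rw [pow_zero, h.one]
    have h1 : lam ((p : ℕ) ^ 1) = lam p := by rw [pow_one]
    fin_cases j
    · exact root_le (b := fun i => lam ((p : ℕ) ^ i)) h0 h1 hpow (by positivity) hb (hα p).1 (hα p).2
    · exact root_le (b := fun i => lam ((p : ℕ) ^ i)) h0 h1 hpow (by positivity) hb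
        (by rw [add_comm]; exact (hα p).1) (by rw [mul_comm]; exact (hα p).2)
  have hc : Tendsto (fun σ : ℝ => ((p : ℕ) : ℝ) ^ (σ / 2)) (𝓝[>] 1) (𝓝 (((p : ℕ) : ℝ) ^ ((1 : ℝ) / 2))) := by
    refine tendsto_nhdsWithin_of_tendsto_nhds ?_
    exact ((Real.continuous_const_rpow hp0.ne').comp (continuous_id.div_const 2)).tendsto 1
  exact ge_of_tendsto hc (by filter_upwards [self_mem_nhdsWithin] with σ hσ using key σ hσ)

theorem prime_summable {f : ℕ → ℝ} (h : Summable f) : Summable fun p : Nat.Primes => f p :=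
  h.comp_injective (Subtype.val_injective (p := Nat.Prime))

theorem p_ge (p : Nat.Primes) : (2 : ℝ) ≤ ((p : ℕ) : ℝ) := by exact_mod_cast p.2.two_le

/-- the square factor -/
theorem sq_summable (h : Dat lam ps) {σ : ℝ} (hσ : 1 / 2 < σ) :
    Summable fun p : Nat.Primes => 2 * (‖lam p‖ + 1) ^ 2 * (((p : ℕ) : ℝ) ^ (-σ)) ^ 2 := by
  have h1 := prime_summable (h.sq (2 * σ) (by linarith))
  have h2 : Summable fun p : Nat.Primes => ((p : ℕ) : ℝ) ^ (-(2 * σ)) :=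
    prime_summable (Real.summable_nat_rpow.2 (by linarith))
  refine Summable.of_nonneg_of_le (fun p => by positivity) (fun p => ?_) ((h1.add h2).mul_left 4)
  have hp0 : (0 : ℝ) < (p : ℕ) := by exact_mod_cast p.2.pos
  have e : (((p : ℕ) : ℝ) ^ (-σ)) ^ 2 = ((p : ℕ) : ℝ) ^ (-(2 * σ)) := by
    rw [← Real.rpow_natCast, ← Real.rpow_mul hp0.le]
    congr 1
    push_cast
    ring
  rw [e]
  have h3 : 2 * (‖lam p‖ + 1) ^ 2 ≤ 4 * (‖lam p‖ ^ 2 + 1) := by nlinarith [sq_nonneg (‖lam p‖ - 1)]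
  calc _ ≤ 4 * (‖lam p‖ ^ 2 + 1) * ((p : ℕ) : ℝ) ^ (-(2 * σ)) := mul_le_mul_of_nonneg_right h3 (by positivity)
    _ = _ := by ring

/-- prime squares and higher powers, to the right of `1/2` -/
theorem summ2 (h : Dat lam ps) (hα : IsAl lam ps α) {σ : ℝ} (hσ : 1 / 2 < σ) :
    Summable fun x : Nat.Primes × ℕ => ‖tr (α x.1) (x.2 + 2)‖ * (((x.1 : ℕ) : ℝ) ^ (-σ)) ^ (x.2 + 2) := by
  obtain ⟨r, hr⟩ : ∃ r : ℝ, r = (2 : ℝ) ^ (1 / 2 - σ) := ⟨_, rfl⟩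
  have hr0 : 0 < r := by rw [hr]; positivity
  have hr1 : r < 1 := by rw [hr]; exact Real.rpow_lt_one_of_one_lt_of_neg one_lt_two (by linarith)
  have hg : Summable fun k : ℕ => r ^ k := summable_geometric_of_lt_one hr0.le hr1
  refine Summable.of_nonneg_of_le (fun x => by positivity) (fun x => ?_)
    ((sq_summable h hσ).mul_of_nonneg hg (fun p => by positivity) (fun k => by positivity))
  obtain ⟨p, k⟩ := x
  have hp0 : (0 : ℝ) < (p : ℕ) := by exact_mod_cast p.2.pos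
  simp only
  have h1 := tr_le (hα p).1 (hα p).2 (h.ps_le p) (R := ((p : ℕ) : ℝ) ^ (1 / 2 : ℝ)) (by positivity) (al_le h hα p) k
  have h2 : ((p : ℕ) : ℝ) ^ (1 / 2 : ℝ) * ((p : ℕ) : ℝ) ^ (-σ) ≤ r := by
    rw [← Real.rpow_add hp0, hr]
    exact Real.rpow_le_rpow_of_nonpos two_pos (p_ge p) (by linarith)
  have h3 : (((p : ℕ) : ℝ) ^ (1 / 2 : ℝ)) ^ k * (((p : ℕ) : ℝ) ^ (-σ)) ^ k ≤ r ^ k := by
    rw [← mul_pow]
    exact pow_le_pow_left₀ (by positivity) h2 k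
  calc ‖tr (α p) (k + 2)‖ * (((p : ℕ) : ℝ) ^ (-σ)) ^ (k + 2)
      ≤ (2 * (‖lam p‖ + 1) ^ 2 * (((p : ℕ) : ℝ) ^ (1 / 2 : ℝ)) ^ k) * (((p : ℕ) : ℝ) ^ (-σ)) ^ (k + 2) :=
        mul_le_mul_of_nonneg_right h1 (by positivity)
    _ = (2 * (‖lam p‖ + 1) ^ 2 * (((p : ℕ) : ℝ) ^ (-σ)) ^ 2) *
          ((((p : ℕ) : ℝ) ^ (1 / 2 : ℝ)) ^ k * (((p : ℕ) : ℝ) ^ (-σ)) ^ k) := by ring
    _ ≤ _ := mul_le_mul_of_nonneg_left h3 (by positivity)

/-- primes -/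
theorem summ1 (h : Dat lam ps) {σ : ℝ} (hσ : 1 < σ) :
    Summable fun n : ℕ => ‖lam n‖ * (n : ℝ) ^ (-σ) := by
  have h1 := h.sq σ hσ
  have h2 : Summable fun n : ℕ => (n : ℝ) ^ (-σ) := Real.summable_nat_rpow.2 (by linarith)
  refine Summable.of_nonneg_of_le (fun p => by positivity) (fun n => ?_) (h1.add h2)
  have h3 : ‖lam n‖ ≤ ‖lam n‖ ^ 2 + 1 := by nlinarith [sq_nonneg (‖lam n‖ - 1)]
  calc _ ≤ (‖lam n‖ ^ 2 + 1) * (n : ℝ) ^ (-σ) := mul_le_mul_of_nonneg_right h3 (by positivity)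
    _ = _ := by ring

/-- a sum over `Nat.Primes × ℕ` from its first column and the rest -/
theorem summable_split {f : Nat.Primes × ℕ → ℝ} (hf : ∀ x, 0 ≤ f x) (h1 : Summable fun p : Nat.Primes => f (p, 0))
    (h2 : Summable fun x : Nat.Primes × ℕ => f (x.1, x.2 + 1)) : Summable f := by
  rw [summable_prod_of_nonneg hf]
  rw [summable_prod_of_nonneg (fun x => hf _)] at h2
  obtain ⟨a1, a2⟩ := h2
  have h3 : ∀ p, Summable fun k => f (p, k) := fun p => (summable_nat_add_iff (f := fun k => f (p, k)) 1).1 (a1 p)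
  refine ⟨h3, ?_⟩
  refine (h1.add a2).congr fun p => ?_
  exact ((h3 p).tsum_eq_zero_add).symm

/-- the double series -/
theorem summ (h : Dat lam ps) (hα : IsAl lam ps α) {σ : ℝ} (hσ : 1 < σ) :
    Summable fun x : Nat.Primes × ℕ => ‖tr (α x.1) (x.2 + 1)‖ / ((x.2 : ℝ) + 1) *
      (((x.1 : ℕ) : ℝ) ^ (-σ)) ^ (x.2 + 1) := by
  refine summable_split (fun x => by positivity) ?_ ?_
  · refine (prime_summable (summ1 h hσ)).congr fun p => ?_
    simp only [Nat.cast_zero, zero_add, div_one, pow_one]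
    rw [tr_one, (hα p).1]
  · refine Summable.of_nonneg_of_le (fun x => by positivity) (fun x => ?_) (summ2 h hα (σ := σ) (by linarith))
    refine mul_le_mul_of_nonneg_right ?_ (by positivity)
    refine div_le_self (norm_nonneg _) ?_
    push_cast
    have : (0 : ℝ) ≤ x.2 := Nat.cast_nonneg _
    linarith

theorem npow (p : Nat.Primes) (s : ℂ) (k : ℕ) : ‖(((p : ℕ) : ℂ) ^ (-s)) ^ k‖ = (((p : ℕ) : ℝ) ^ (-s.re)) ^ k := by
  rw [norm_pow, Complex.norm_natCast_cpow_of_pos p.2.pos, Complex.neg_re]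

theorem norm_succ (k : ℕ) : ‖((k : ℂ) + 1)‖ = (k : ℝ) + 1 := by
  have : ((k : ℂ) + 1) = ((k + 1 : ℕ) : ℂ) := by push_cast; rfl
  rw [this, Complex.norm_natCast]
  push_cast
  rfl

/-- **The logarithm of the Dirichlet series.** -/
theorem euler (h : Dat lam ps) (hα : IsAl lam ps α) {s : ℂ} (hs : 1 < s.re) :
    ∑' n : ℕ, lam n * (n : ℂ) ^ (-s) = cexp (∑' x : Nat.Primes × ℕ,
      tr (α x.1) (x.2 + 1) / ((x.2 : ℂ) + 1) * (((x.1 : ℕ) : ℂ) ^ (-s)) ^ (x.2 + 1)) := by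
  have hn : ∀ n : ℕ, ‖lam n * (n : ℂ) ^ (-s)‖ = ‖lam n‖ * (n : ℝ) ^ (-s.re) := by
    intro n
    rcases Nat.eq_zero_or_pos n with rfl | hn
    · rw [h.zero]
      simp
    · rw [norm_mul, Complex.norm_natCast_cpow_of_pos hn, Complex.neg_re]
  have hsum : Summable fun n : ℕ => ‖lam n * (n : ℂ) ^ (-s)‖ := (summ1 h hs).congr fun n => (hn n).symm
  have hprod := EulerProduct.eulerProduct_hasProd (f := fun n : ℕ => lam n * (n : ℂ) ^ (-s))
    (by simp [h.one]) (fun {m n} hmn => by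
      rw [h.mul m n hmn, Nat.cast_mul, Complex.natCast_mul_natCast_cpow]
      ring) hsum (by simp [h.zero])
  have hdouble : Summable fun x : Nat.Primes × ℕ =>
      tr (α x.1) (x.2 + 1) / ((x.2 : ℂ) + 1) * (((x.1 : ℕ) : ℂ) ^ (-s)) ^ (x.2 + 1) := by
    refine Summable.of_norm ((summ h hα hs).congr fun x => ?_)
    rw [norm_mul, norm_div, norm_succ, npow]
  have hloc : ∀ p : Nat.Primes, ∑' e : ℕ, lam ((p : ℕ) ^ e) * (((p : ℕ) ^ e : ℕ) : ℂ) ^ (-s) =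
      cexp (∑' k : ℕ, tr (α p) (k + 1) / ((k : ℂ) + 1) * (((p : ℕ) : ℂ) ^ (-s)) ^ (k + 1)) := by
    intro p
    have hp0 : (0 : ℝ) < (p : ℕ) := by exact_mod_cast p.2.pos
    have hz : ∀ j, ‖α p j * ((p : ℕ) : ℂ) ^ (-s)‖ < 1 := by
      intro j
      rw [norm_mul, Complex.norm_natCast_cpow_of_pos p.2.pos, Complex.neg_re]
      calc ‖α p j‖ * ((p : ℕ) : ℝ) ^ (-s.re) ≤ ((p : ℕ) : ℝ) ^ (1 / 2 : ℝ) * ((p : ℕ) : ℝ) ^ (-s.re) :=
            mul_le_mul_of_nonneg_right (al_le h hα p j) (by positivity)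
        _ = ((p : ℕ) : ℝ) ^ (1 / 2 - s.re) := by rw [← Real.rpow_add hp0]; rfl
        _ < 1 := Real.rpow_lt_one_of_one_lt_of_neg (lt_of_lt_of_le one_lt_two (p_ge p)) (by linarith)
    rw [(log_two hz).2]
    have hpe : ∀ e : ℕ, (((p : ℕ) ^ e : ℕ) : ℂ) ^ (-s) = (((p : ℕ) : ℂ) ^ (-s)) ^ e := by
      intro e
      rw [Nat.cast_pow, ← Complex.natCast_cpow_natCast_mul, ← Complex.cpow_nat_mul, mul_comm]
      try rfl
    have hse : Summable fun e : ℕ => lam ((p : ℕ) ^ e) * (((p : ℕ) : ℂ) ^ (-s)) ^ e := by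
      have h5 := hsum.of_norm.comp_injective (Nat.pow_right_injective p.2.two_le)
      refine h5.congr fun e => ?_
      simp only [Function.comp]
      rw [hpe]
    have h6 := loc_sum (b := fun e => lam ((p : ℕ) ^ e)) (l := lam p) (ψ := ps p) (by simp [h.one]) (by simp)
      (fun j => h.pow p j p.2) hse
    have e1 : (1 - α p 0 * ((p : ℕ) : ℂ) ^ (-s)) * (1 - α p 1 * ((p : ℕ) : ℂ) ^ (-s)) =
        1 - lam p * ((p : ℕ) : ℂ) ^ (-s) + ps p * (((p : ℕ) : ℂ) ^ (-s)) ^ 2 := by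
      rw [← (hα p).1, ← (hα p).2]
      ring
    rw [e1]
    simp only [hpe]
    exact eq_inv_of_mul_eq_one_left h6
  simp only [hloc] at hprod
  have hsp : Summable fun p : Nat.Primes => ∑' k : ℕ, tr (α p) (k + 1) / ((k : ℂ) + 1) *
      (((p : ℕ) : ℂ) ^ (-s)) ^ (k + 1) := hdouble.prod
  have h7 : HasProd (fun p : Nat.Primes => cexp (∑' k : ℕ, tr (α p) (k + 1) / ((k : ℂ) + 1) *
      (((p : ℕ) : ℂ) ^ (-s)) ^ (k + 1))) (cexp (∑' p : Nat.Primes, ∑' k : ℕ, tr (α p) (k + 1) / ((k : ℂ) + 1) *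
      (((p : ℕ) : ℂ) ^ (-s)) ^ (k + 1))) := hsp.hasSum.cexp
  rw [hprod.unique h7, hdouble.tsum_prod]

end Pool.Agent.Q212.ND
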