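import Mathlib

/-! Polynomial growth of `Λ / Γ` in vertical strips, from a functional equation. -/

set_option autoImplicit false

open MeasureTheory Set Filter Topology Complex

namespace Pool.Agent.Q212.ND

lemma norm_Gamma_le {z : ℂ} (hz : 0 < z.re) : ‖Complex.Gamma z‖ ≤ Real.Gamma z.re := by
  rw [Complex.Gamma_eq_integral hz, Complex.GammaIntegral, Real.Gamma_eq_integral hz]
  refine (norm_integral_le_integral_norm _).trans_eq ?_
  apply setIntegral_congr_fun measurableSet_Ioi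
  intro x hx
  have hx : 0 < x := hx
  simp only [norm_mul, Complex.norm_real, Real.norm_of_nonneg (Real.exp_pos _).le]
  rw [Complex.norm_cpow_eq_rpow_re_of_pos hx]
  simp

lemma norm_sin_le (z : ℂ) : ‖Complex.sin z‖ ≤ Real.exp |z.im| := by
  rw [Complex.sin]
  rw [norm_div, norm_mul, Complex.norm_I, mul_one, Complex.norm_ofNat]
  have h1 : ‖Complex.exp (-z * Complex.I) - Complex.exp (z * Complex.I)‖ ≤
      Real.exp |z.im| + Real.exp |z.im| := by
    refine (norm_sub_le _ _).trans ?_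
    rw [Complex.norm_exp, Complex.norm_exp]
    apply add_le_add
    · apply Real.exp_le_exp.2
      have : (-z * Complex.I).re = z.im := by simp
      rw [this]; exact le_abs_self _
    · apply Real.exp_le_exp.2
      have : (z * Complex.I).re = -z.im := by simp
      rw [this]; exact neg_le_abs _
  linarith

lemma inv_Gamma_le {w : ℂ} (hw : w.re ≤ 0) :
    ‖(Complex.Gamma w)⁻¹‖ ≤ Real.Gamma (1 - w.re) * Real.exp (Real.pi * |w.im|) := by
  have h1 : 0 < (1 - w).re := by simp; linarith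
  have hne : Complex.Gamma (1 - w) ≠ 0 := Complex.Gamma_ne_zero_of_re_pos h1
  have h2 := Complex.Gamma_mul_Gamma_one_sub w
  have h3 : ‖Complex.Gamma (1 - w)‖ ≤ Real.Gamma (1 - w.re) := by
    have := norm_Gamma_le h1
    simpa using this
  have hG : 0 < Real.Gamma (1 - w.re) := Real.Gamma_pos_of_pos (by linarith)
  rcases eq_or_ne (Complex.sin (Real.pi * w)) 0 with hs | hs
  · rw [hs, div_zero] at h2
    have : Complex.Gamma w = 0 := by
      rcases mul_eq_zero.1 h2 with h | h
      · exact h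
      · exact absurd h hne
    rw [this, inv_zero, norm_zero]
    positivity
  · have hpi : (Real.pi : ℂ) ≠ 0 := by exact_mod_cast Real.pi_ne_zero
    have hGw : Complex.Gamma w ≠ 0 := by
      intro h0
      rw [h0, zero_mul] at h2
      have := div_ne_zero hpi hs
      exact this h2.symm
    have h4 : (Complex.Gamma w)⁻¹ = Complex.Gamma (1 - w) * Complex.sin (Real.pi * w) / Real.pi := by
      rw [eq_div_iff hs] at h2
      rw [eq_div_iff hpi]
      calc (Complex.Gamma w)⁻¹ * (Real.pi : ℂ) = (Complex.Gamma w)⁻¹ *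
            (Complex.Gamma w * Complex.Gamma (1 - w) * Complex.sin (Real.pi * w)) := by rw [h2]
        _ = ((Complex.Gamma w)⁻¹ * Complex.Gamma w) *
            (Complex.Gamma (1 - w) * Complex.sin (Real.pi * w)) := by ring
        _ = _ := by rw [inv_mul_cancel₀ hGw, one_mul]
    rw [h4, norm_div, norm_mul, Complex.norm_real, Real.norm_of_nonneg Real.pi_pos.le]
    have h5 : ‖Complex.sin (Real.pi * w)‖ ≤ Real.exp (Real.pi * |w.im|) := by
      refine (norm_sin_le _).trans_eq ?_
      congr 1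
      simp [abs_mul, abs_of_pos Real.pi_pos]
    rw [div_le_iff₀ Real.pi_pos]
    calc ‖Complex.Gamma (1 - w)‖ * ‖Complex.sin (Real.pi * w)‖
        ≤ Real.Gamma (1 - w.re) * Real.exp (Real.pi * |w.im|) :=
          mul_le_mul h3 h5 (norm_nonneg _) hG.le
      _ ≤ Real.Gamma (1 - w.re) * Real.exp (Real.pi * |w.im|) * Real.pi := by
          have : (1:ℝ) ≤ Real.pi := by linarith [Real.pi_gt_three]
          have h0 : 0 ≤ Real.Gamma (1 - w.re) * Real.exp (Real.pi * |w.im|) := by positivity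
          nlinarith

lemma inv_Gamma_shift {z : ℂ} (hz : 1 ≤ |z.im|) (N : ℕ) :
    ‖(Complex.Gamma z)⁻¹‖ ≤ ‖(Complex.Gamma (z - N))⁻¹‖ := by
  induction N with
  | zero => simp
  | succ N ih =>
    refine ih.trans ?_
    have h := Complex.one_div_Gamma_eq_self_mul_one_div_Gamma_add_one (z - (N+1 : ℕ))
    have e : z - ((N+1 : ℕ) : ℂ) + 1 = z - N := by push_cast; ring
    rw [e] at h
    rw [h, norm_mul]
    have h2 : 1 ≤ ‖z - ((N+1 : ℕ) : ℂ)‖ := by
      refine hz.trans ?_
      have := Complex.abs_im_le_norm (z - ((N+1 : ℕ) : ℂ))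
      have e2 : (z - ((N+1 : ℕ) : ℂ)).im = z.im := by simp
      rwa [e2] at this
    have h3 := norm_nonneg (Complex.Gamma (z - N))⁻¹
    nlinarith

lemma inv_Gamma_strip (x₀ x₁ : ℝ) : ∃ C : ℝ, 0 ≤ C ∧ ∀ z : ℂ, x₀ ≤ z.re → z.re ≤ x₁ → 1 ≤ |z.im| →
    ‖(Complex.Gamma z)⁻¹‖ ≤ C * Real.exp (Real.pi * |z.im|) := by
  obtain ⟨N, hN⟩ := exists_nat_ge x₁
  have hc : ContinuousOn Real.Gamma (Icc (1 - (x₁ - N)) (1 - (x₀ - N))) := by
    intro x hx
    have hd : DifferentiableAt ℝ Real.Gamma x := by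
      apply Real.differentiableAt_Gamma
      intro m hm
      have h1 : 0 < x := by linarith [hx.1]
      have h2 : (0:ℝ) ≤ m := Nat.cast_nonneg m
      linarith
    exact hd.continuousAt.continuousWithinAt
  obtain ⟨C, hC⟩ := isCompact_Icc.exists_bound_of_continuousOn hc
  refine ⟨|C|, abs_nonneg _, fun z h0 h1 h2 => ?_⟩
  refine (inv_Gamma_shift h2 N).trans ?_
  have hre : (z - N).re = z.re - N := by simp
  have him : (z - N).im = z.im := by simp
  have h3 := inv_Gamma_le (w := z - N) (by rw [hre]; linarith)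
  rw [hre, him] at h3
  refine h3.trans ?_
  apply mul_le_mul_of_nonneg_right _ (Real.exp_pos _).le
  have h4 := hC (1 - (z.re - N)) ⟨by linarith, by linarith⟩
  exact (le_abs_self _).trans (h4.trans (le_abs_self _))

lemma Gamma_shift_le (z : ℂ) (m : ℕ) :
    ‖Complex.Gamma (z + m)‖ * ‖(Complex.Gamma z)⁻¹‖ ≤ ∏ j ∈ Finset.range m, ‖z + j‖ := by
  induction m with
  | zero =>
    simp only [Nat.cast_zero, add_zero, Finset.range_zero, Finset.prod_empty]
    rcases eq_or_ne (Complex.Gamma z) 0 with h | h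
    · simp [h]
    · rw [norm_inv, mul_inv_cancel₀ (norm_ne_zero_iff.2 h)]
  | succ m ih =>
    rw [Finset.prod_range_succ]
    rcases eq_or_ne (z + m) 0 with h | h
    · have hz : z = -(m:ℂ) := by linear_combination h
      have : Complex.Gamma z = 0 := by rw [hz]; exact Complex.Gamma_neg_nat_eq_zero m
      rw [this, inv_zero, norm_zero, mul_zero]
      positivity
    · have e : z + ((m+1 : ℕ) : ℂ) = (z + m) + 1 := by push_cast; ring
      rw [e, Complex.Gamma_add_one _ h, norm_mul]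
      calc ‖z + m‖ * ‖Complex.Gamma (z + m)‖ * ‖(Complex.Gamma z)⁻¹‖
          = (‖Complex.Gamma (z + m)‖ * ‖(Complex.Gamma z)⁻¹‖) * ‖z + m‖ := by ring
        _ ≤ _ := mul_le_mul_of_nonneg_right ih (norm_nonneg _)


/-- **Polynomial growth in vertical strips.** -/
theorem strip {k κ : ℝ} {Λ E : ℂ → ℂ} (hE : Differentiable ℂ E)
    (hEΛ : ∀ z, E z = Λ z * (Complex.Gamma z)⁻¹)
    (hb : ∀ x₀ x₁ : ℝ, ∃ C : ℝ, 0 ≤ C ∧ ∀ z : ℂ, x₀ ≤ z.re → z.re ≤ x₁ → ‖Λ z‖ ≤ C)
    (hfe : ∀ z, ‖Λ z‖ = ‖Λ (k - z)‖)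
    (hR : ∀ x : ℝ, κ < x → ∃ C : ℝ, 0 ≤ C ∧ ∀ z : ℂ, z.re = x → ‖E z‖ ≤ C) (hk : 0 < k) (x₀ x₁ : ℝ) :
    ∃ C M : ℝ, ∀ z : ℂ, x₀ ≤ z.re → z.re ≤ x₁ → ‖E z‖ ≤ C * (1 + |z.im|) ^ M := by
  obtain ⟨m, hm⟩ := exists_nat_gt (max (max k (2 * κ - k)) (max (k - 2 * x₀) (2 * x₁ - k)))
  have hmk : k < m := lt_of_le_of_lt ((le_max_left _ _).trans (le_max_left _ _)) hm
  have hmκ : 2 * κ - k < m := lt_of_le_of_lt ((le_max_right _ _).trans (le_max_left _ _)) hm
  have hm0 : k - 2 * x₀ < m := lt_of_le_of_lt ((le_max_left _ _).trans (le_max_right _ _)) hm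
  have hm1 : 2 * x₁ - k < m := lt_of_le_of_lt ((le_max_right _ _).trans (le_max_right _ _)) hm
  have hmpos : (0:ℝ) < m := by linarith
  set α := k / 2 - m / 2 with hα
  set β := k / 2 + m / 2 with hβ
  obtain ⟨C₁, hC₁0, hC₁⟩ := hR β (by rw [hβ]; linarith)
  have hleft : ∀ z : ℂ, z.re = α → ‖E z‖ ≤ C₁ * ∏ j ∈ Finset.range m, ‖z + j‖ := by
    intro z hz
    have hre : ((k:ℂ) - z).re = β := by simp [hz, hα, hβ]; ring
    have h1 : ‖Λ z‖ = ‖Λ (k - z)‖ := hfe z
    have h2 := hC₁ (k - z) hre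
    have hne : Complex.Gamma (k - z) ≠ 0 := Complex.Gamma_ne_zero_of_re_pos (by rw [hre, hβ]; linarith)
    have h3 : Λ (k - z) = E (k - z) * Complex.Gamma (k - z) := by
      rw [hEΛ]
      field_simp
    have h4 : ‖Complex.Gamma (k - z)‖ = ‖Complex.Gamma (z + m)‖ := by
      have e : z + m = (starRingEnd ℂ) ((k:ℂ) - z) := by
        apply Complex.ext
        · simp [hz, hα]; ring
        · simp
      rw [e, Complex.Gamma_conj, Complex.norm_conj]
    have h5 : ‖E z‖ = ‖E (k - z)‖ * (‖Complex.Gamma (z + m)‖ * ‖(Complex.Gamma z)⁻¹‖) := by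
      rw [hEΛ z, norm_mul, h1, h3, norm_mul, h4]
      ring
    rw [h5]
    exact mul_le_mul h2 (Gamma_shift_le z m) (by positivity) (le_trans (norm_nonneg _) h2)
  set h : ℂ → ℂ := fun z => E z / (z + (m + 1)) ^ m with hh
  have hre1 : ∀ z : ℂ, α ≤ z.re → 1 ≤ (z + (m+1)).re := by
    intro z hz
    simp
    rw [hα] at hz
    linarith
  have hn1 : ∀ z : ℂ, α ≤ z.re → 1 ≤ ‖z + (m+1)‖ := fun z hz =>
    (hre1 z hz).trans ((le_abs_self _).trans (Complex.abs_re_le_norm _))
  have hne : ∀ z : ℂ, α ≤ z.re → (z + (m+1)) ^ m ≠ 0 := fun z hz =>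
    pow_ne_zero _ (norm_pos_iff.1 (lt_of_lt_of_le one_pos (hn1 z hz)))
  have hle : ∀ z : ℂ, α ≤ z.re → ‖h z‖ ≤ ‖E z‖ := by
    intro z hz
    rw [hh]
    simp only [norm_div, norm_pow]
    apply div_le_self (norm_nonneg _)
    exact one_le_pow₀ (hn1 z hz)
  have key : ∀ z : ℂ, α ≤ z.re → z.re ≤ β → ‖h z‖ ≤ C₁ := by
    intro z hza hzb
    apply PhragmenLindelof.vertical_strip (a := α) (b := β) (f := h) (C := C₁) ?_ ?_ ?_ ?_ hza hzb
    · apply DifferentiableOn.diffContOnCl
      intro w hw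
      have hw' : w ∈ Complex.re ⁻¹' (Icc α β) := by
        have : closure (Complex.re ⁻¹' (Ioo α β)) ⊆ Complex.re ⁻¹' (Icc α β) :=
          closure_minimal (preimage_mono Ioo_subset_Icc_self) (isClosed_Icc.preimage Complex.continuous_re)
        exact this hw
      apply DifferentiableAt.differentiableWithinAt
      apply DifferentiableAt.div
      · exact hE w
      · fun_prop
      · exact hne w hw'.1
    · refine ⟨Real.pi / (2 * m), ?_, 2 * m, ?_⟩
      · have : β - α = m := by rw [hα, hβ]; ring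
        rw [this]
        apply div_lt_div_of_pos_left Real.pi_pos hmpos
        linarith
      · obtain ⟨C₂, hC₂0, hC₂⟩ := hb α β
        obtain ⟨C₃, hC₃0, hC₃⟩ := inv_Gamma_strip α β
        apply Asymptotics.IsBigO.of_bound (C₂ * C₃)
        rw [Filter.eventually_inf_principal]
        have hev : ∀ᶠ z : ℂ in comap (_root_.abs ∘ Complex.im) atTop, 1 ≤ (_root_.abs ∘ Complex.im) z :=
          tendsto_comap.eventually (eventually_ge_atTop 1)
        filter_upwards [hev] with z hz1 hz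
        have hz1 : 1 ≤ |z.im| := hz1
        have ha : α ≤ z.re := (mem_preimage.1 hz).1.le
        have hb : z.re ≤ β := (mem_preimage.1 hz).2.le
        refine (hle z ha).trans ?_
        rw [hEΛ, norm_mul, Real.norm_of_nonneg (Real.exp_pos _).le]
        have h1 := hC₂ z ha hb
        have h2 := hC₃ z ha hb hz1
        have h3 : Real.exp (Real.pi * |z.im|) ≤ Real.exp (2 * m * Real.exp (Real.pi / (2 * m) * |z.im|)) := by
          apply Real.exp_le_exp.2
          have h4 : Real.pi / (2 * m) * |z.im| ≤ Real.exp (Real.pi / (2 * m) * |z.im|) :=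
            (by linarith [Real.add_one_le_exp (Real.pi / (2 * m) * |z.im|)])
          calc Real.pi * |z.im| = 2 * m * (Real.pi / (2 * m) * |z.im|) := by field_simp
            _ ≤ _ := by gcongr
        calc ‖Λ z‖ * ‖(Complex.Gamma z)⁻¹‖ ≤ C₂ * (C₃ * Real.exp (Real.pi * |z.im|)) :=
              mul_le_mul h1 h2 (norm_nonneg _) hC₂0
          _ ≤ C₂ * (C₃ * Real.exp (2 * m * Real.exp (Real.pi / (2 * m) * |z.im|))) := by gcongr
          _ = _ := by ring
    · intro w hw
      have hwα : α ≤ w.re := hw.ge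
      rw [hh]
      simp only [norm_div, norm_pow]
      have hpos : 0 < ‖w + (m+1)‖ ^ m := pow_pos (lt_of_lt_of_le one_pos (hn1 w hwα)) _
      rw [div_le_iff₀ hpos]
      refine (hleft w hw).trans ?_
      apply mul_le_mul_of_nonneg_left _ hC₁0
      calc ∏ j ∈ Finset.range m, ‖w + j‖ ≤ ∏ _j ∈ Finset.range m, ‖w + (m+1)‖ := by
            apply Finset.prod_le_prod (fun _ _ => norm_nonneg _)
            intro j hj
            have hj : (j:ℝ) < m := by exact_mod_cast Finset.mem_range.1 hj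
            have hj0 : (0:ℝ) ≤ j := Nat.cast_nonneg j
            rw [← Real.sqrt_sq (norm_nonneg (w + (m+1))), ← Real.sqrt_sq (norm_nonneg (w + j))]
            apply Real.sqrt_le_sqrt
            rw [← Complex.normSq_eq_norm_sq, ← Complex.normSq_eq_norm_sq, Complex.normSq_apply,
              Complex.normSq_apply]
            simp only [Complex.add_re, Complex.add_im, Complex.natCast_re, Complex.natCast_im,
              Complex.one_re, Complex.one_im, add_zero]
            have : w.re = k / 2 - m / 2 := hw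
            nlinarith
        _ = ‖w + (m+1)‖ ^ m := by simp
    · intro w hw
      have hwα : α ≤ w.re := by rw [hw]; linarith
      exact (hle w hwα).trans (hC₁ w hw)
  refine ⟨C₁ * (m + 1 + |x₀| + |x₁| + 1) ^ m, m, fun z h0 h1 => ?_⟩
  have ha : α ≤ z.re := by rw [hα]; linarith
  have hb : z.re ≤ β := by rw [hβ]; linarith
  have h2 := key z ha hb
  have hpos : 0 < ‖z + (m+1)‖ ^ m := pow_pos (lt_of_lt_of_le one_pos (hn1 z ha)) _
  rw [hh] at h2
  simp only [norm_div, norm_pow] at h2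
  rw [div_le_iff₀ hpos] at h2
  refine h2.trans ?_
  rw [Real.rpow_natCast, mul_assoc, ← mul_pow]
  apply mul_le_mul_of_nonneg_left _ hC₁0
  apply pow_le_pow_left₀ (norm_nonneg _)
  have h3 : ‖z + (m+1)‖ ≤ ‖z‖ + (m + 1) := by
    refine (norm_add_le _ _).trans ?_
    have : ‖((m:ℂ) + 1)‖ = m + 1 := by
      have e : ((m:ℂ) + 1) = (((m:ℝ) + 1 : ℝ) : ℂ) := by push_cast; ring
      rw [e, Complex.norm_real, Real.norm_of_nonneg (by positivity)]
    rw [this]
  have h4 : ‖z‖ ≤ |z.re| + |z.im| := Complex.norm_le_abs_re_add_abs_im z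
  have h5 : |z.re| ≤ |x₀| + |x₁| := by
    rw [abs_le]
    constructor
    · have := neg_abs_le x₀
      have := abs_nonneg x₁
      linarith
    · have := le_abs_self x₁
      have := abs_nonneg x₀
      linarith
  have h6 := abs_nonneg z.im
  have h7 : 0 ≤ (m + 1 + |x₀| + |x₁|) * |z.im| := by positivity
  nlinarith

end Pool.Agent.Q212.ND
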