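import Pool.Agent.Q212.ND.Grow
import Pool.Agent.H471R3.GJ.HKer
import Pool.Agent.H471R3.GJ.HDir

/-! The completed function of a Hecke series, normalised. -/

set_option autoImplicit false

open Complex Filter Topology MeasureTheory Set

namespace Pool.Agent.Q212.ND

open Pool.Agent.H471R3.GJ (Hk IsHk SDir SKer)

variable {H : Hk}

/-- the Mellin transform -/
noncomputable def Mel (H : Hk) (s : ℂ) : ℂ := mellin (fun y : ℝ => ((H.φ y : ℝ) : ℂ)) s

theorem phi_cont (h : IsHk H) : ContinuousOn (fun y : ℝ => ((H.φ y : ℝ) : ℂ)) (Ioi 0) :=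
  Complex.continuous_ofReal.comp_continuousOn (Pool.Agent.H471R3.GJ.ker H h).1

theorem phi_top (h : IsHk H) (r : ℝ) : (fun y : ℝ => ((H.φ y : ℝ) : ℂ)) =O[atTop] fun y : ℝ => y ^ r := by
  obtain ⟨-, ⟨C, hC⟩, -⟩ := Pool.Agent.H471R3.GJ.ker H h
  have hh := h.h_pos
  have hc : 0 < 2 * Real.pi / H.h := by positivity
  have h1 : (fun y : ℝ => ((H.φ y : ℝ) : ℂ)) =O[atTop] fun y : ℝ => Real.exp (-(2 * Real.pi / H.h) * y) := by
    refine Asymptotics.IsBigO.of_bound C ?_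
    filter_upwards [eventually_ge_atTop 1] with y hy
    rw [Complex.norm_real, Real.norm_eq_abs, Real.norm_of_nonneg (Real.exp_pos _).le]
    refine (hC y hy).trans (le_of_eq ?_)
    congr 2
    ring
  exact h1.trans (isLittleO_exp_neg_mul_rpow_atTop hc r).isBigO

theorem eps_ne (h : IsHk H) : (H.ε : ℂ) ≠ 0 := by
  rcases h.ε_or with h1 | h1
  · rw [h1]; norm_num
  · rw [h1]; norm_num

/-- the pair -/
noncomputable def pair (h : IsHk H) : WeakFEPair ℂ where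
  f := fun y : ℝ => ((H.φ y : ℝ) : ℂ)
  g := fun y : ℝ => ((H.φ y : ℝ) : ℂ)
  k := H.k
  ε := H.ε
  f₀ := 0
  g₀ := 0
  hf_int := (phi_cont h).locallyIntegrableOn measurableSet_Ioi
  hg_int := (phi_cont h).locallyIntegrableOn measurableSet_Ioi
  hk := h.k_pos
  hε := eps_ne h
  h_feq := by
    intro x hx
    rw [h.φ_inv x hx]
    push_cast
    simp
  hf_top := by
    intro r
    simpa using phi_top h r
  hg_top := by
    intro r
    simpa using phi_top h r

theorem strong (h : IsHk H) : IsStrongFEPair (pair h) := ⟨rfl, rfl⟩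

theorem mel_diff (h : IsHk H) : Differentiable ℂ (Mel H) := by
  have h1 : (pair h).Λ = Mel H := (strong h).Λ_eq
  rw [← h1]
  exact (strong h).differentiable_Λ

theorem mel_fe (h : IsHk H) (z : ℂ) : Mel H (H.k - z) = H.ε * Mel H z := by
  have h1 := (pair h).functional_equation z
  have h2 : (pair h).symm.Λ = Mel H := (strong h).symm_Λ_eq
  have h0 : (pair h).Λ = Mel H := (strong h).Λ_eq
  rw [h2, h0] at h1
  exact h1

theorem mel_conj (z : ℂ) : Mel H ((starRingEnd ℂ) z) = (starRingEnd ℂ) (Mel H z) := by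
  unfold Mel mellin
  rw [← integral_conj]
  apply setIntegral_congr_fun measurableSet_Ioi
  intro t ht
  have ht : 0 < t := ht
  simp only [smul_eq_mul, map_mul, Complex.conj_ofReal]
  congr 1
  have h := Complex.cpow_conj (t:ℂ) (z - 1)
    (by rw [Complex.arg_ofReal_of_nonneg ht.le]; exact Real.pi_pos.ne)
  rw [Complex.conj_ofReal, map_sub, map_one] at h
  exact h

theorem mel_strip (h : IsHk H) (x₀ x₁ : ℝ) : ∃ C : ℝ, 0 ≤ C ∧ ∀ z : ℂ, x₀ ≤ z.re → z.re ≤ x₁ → ‖Mel H z‖ ≤ C := by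
  have hconv : ∀ s : ℂ, IntegrableOn (fun t : ℝ => (t:ℂ) ^ (s - 1) • ((H.φ t : ℝ) : ℂ)) (Ioi 0) := by
    intro s
    exact ((strong h).hasMellin s).1
  have hreal : ∀ x : ℝ, IntegrableOn (fun t : ℝ => t ^ (x - 1) * |H.φ t|) (Ioi 0) := by
    intro x
    refine IntegrableOn.congr_fun (hconv x).norm ?_ measurableSet_Ioi
    intro t ht
    have ht : 0 < t := ht
    simp only [norm_smul, Complex.norm_real, Real.norm_eq_abs]
    rw [Complex.norm_cpow_eq_rpow_re_of_pos ht]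
    simp
  refine ⟨(∫ t in Ioi (0:ℝ), t ^ (x₀ - 1) * |H.φ t|) + ∫ t in Ioi (0:ℝ), t ^ (x₁ - 1) * |H.φ t|, ?_, ?_⟩
  · apply add_nonneg
    · exact setIntegral_nonneg measurableSet_Ioi fun t ht => mul_nonneg (Real.rpow_nonneg (le_of_lt ht) _) (abs_nonneg _)
    · exact setIntegral_nonneg measurableSet_Ioi fun t ht => mul_nonneg (Real.rpow_nonneg (le_of_lt ht) _) (abs_nonneg _)
  · intro z h0 h1
    unfold Mel mellin
    refine (norm_integral_le_integral_norm _).trans ?_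
    rw [← integral_add (hreal x₀) (hreal x₁)]
    apply setIntegral_mono_on (hconv z).norm ((hreal x₀).add (hreal x₁)) measurableSet_Ioi
    intro t ht
    have ht : 0 < t := ht
    simp only [norm_smul, Complex.norm_real, Real.norm_eq_abs]
    show _ ≤ t ^ (x₀ - 1) * |H.φ t| + t ^ (x₁ - 1) * |H.φ t|
    rw [Complex.norm_cpow_eq_rpow_re_of_pos ht, ← add_mul]
    apply mul_le_mul_of_nonneg_right _ (abs_nonneg _)
    have hre : (z - 1).re = z.re - 1 := by simp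
    rw [hre]
    rcases le_total t 1 with h | h
    · have h3 : t ^ (z.re - 1) ≤ t ^ (x₀ - 1) := Real.rpow_le_rpow_of_exponent_ge ht h (by linarith)
      have h4 : 0 ≤ t ^ (x₁ - 1) := Real.rpow_nonneg ht.le _
      linarith
    · have h3 : t ^ (z.re - 1) ≤ t ^ (x₁ - 1) := Real.rpow_le_rpow_of_exponent_le h (by linarith)
      have h4 : 0 ≤ t ^ (x₀ - 1) := Real.rpow_nonneg ht.le _
      linarith

/-- the quotient by the Gamma function -/
noncomputable def EE (H : Hk) (z : ℂ) : ℂ := Mel H z * (Complex.Gamma z)⁻¹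

theorem ee_diff (h : IsHk H) : Differentiable ℂ (EE H) :=
  (mel_diff h).mul Complex.differentiable_one_div_Gamma

theorem hh_ne (h : IsHk H) : ((H.h / (2 * Real.pi) : ℝ) : ℂ) ≠ 0 := by
  have := h.h_pos
  have : 0 < H.h / (2 * Real.pi) := by positivity
  exact_mod_cast this.ne'

theorem hh_pos (h : IsHk H) : 0 < H.h / (2 * Real.pi) := by
  have := h.h_pos
  positivity

theorem ee_eq (h : IsHk H) (hp : H.p = 1) {z : ℂ} (hz : H.β + 1 < z.re) :
    EE H z = ((H.h / (2 * Real.pi) : ℝ) : ℂ) ^ z *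
      ∑' m : ℕ, ((H.b (m + 1) : ℝ) : ℂ) * ((m + 1 : ℕ) : ℂ) ^ (-z) := by
  have hβ := h.β_nonneg
  have h0 : 0 < z.re := by linarith
  have h1 := Pool.Agent.H471R3.GJ.dir H h z h0 (by rw [hp]; simpa using hz)
  have hg : Complex.Gamma z ≠ 0 := Complex.Gamma_ne_zero_of_re_pos h0
  unfold EE Mel
  rw [h1, hp]
  simp only [Nat.cast_one, neg_mul, one_mul]
  field_simp

theorem b_summable (h : IsHk H) {x : ℝ} (hx : H.β + 1 < x) :
    Summable fun m : ℕ => |H.b (m + 1)| * ((m + 1 : ℕ) : ℝ) ^ (-x) := by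
  have h1 : Summable fun i : ℕ => H.B * (((i + 1 : ℕ) : ℝ)) ^ (H.β - x) := by
    apply Summable.mul_left
    have h2 : Summable fun i : ℕ => ((i : ℕ) : ℝ) ^ (H.β - x) :=
      Real.summable_nat_rpow.2 (by linarith)
    exact (summable_nat_add_iff 1).2 h2
  refine Summable.of_nonneg_of_le (fun i => by positivity) (fun i => ?_) h1
  have hi : (0 : ℝ) < ((i + 1 : ℕ) : ℝ) := by positivity
  calc _ ≤ (H.B * ((i + 1 : ℕ) : ℝ) ^ H.β) * ((i + 1 : ℕ) : ℝ) ^ (-x) :=
        mul_le_mul_of_nonneg_right (h.b_le (i + 1) (by omega)) (by positivity)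
    _ = _ := by
        rw [mul_assoc, ← Real.rpow_add hi]
        rfl

theorem ee_right (h : IsHk H) (hp : H.p = 1) (x : ℝ) (hx : H.β + 1 < x) :
    ∃ C : ℝ, 0 ≤ C ∧ ∀ z : ℂ, z.re = x → ‖EE H z‖ ≤ C := by
  refine ⟨(H.h / (2 * Real.pi)) ^ x * ∑' m : ℕ, |H.b (m + 1)| * ((m + 1 : ℕ) : ℝ) ^ (-x),
    mul_nonneg (Real.rpow_nonneg (hh_pos h).le _) (tsum_nonneg fun m => by positivity), fun z hz => ?_⟩
  rw [ee_eq h hp (by rw [hz]; exact hx), norm_mul, Complex.norm_cpow_eq_rpow_re_of_pos (hh_pos h), hz]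
  refine mul_le_mul_of_nonneg_left ?_ (Real.rpow_nonneg (hh_pos h).le _)
  refine tsum_of_norm_bounded (b_summable h hx).hasSum fun m => ?_
  rw [norm_mul, Complex.norm_real, Real.norm_eq_abs, Complex.norm_natCast_cpow_of_pos (Nat.succ_pos m), Complex.neg_re,
    hz]

theorem ee_strip (h : IsHk H) (hp : H.p = 1) (x₀ x₁ : ℝ) :
    ∃ C M : ℝ, ∀ z : ℂ, x₀ ≤ z.re → z.re ≤ x₁ → ‖EE H z‖ ≤ C * (1 + |z.im|) ^ M := by
  refine strip (Λ := Mel H) (k := H.k) (κ := H.β + 1) (ee_diff h) (fun z => rfl) (mel_strip h) (fun z => ?_)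
    (ee_right h hp) h.k_pos x₀ x₁
  rw [mel_fe h, norm_mul]
  have : ‖(H.ε : ℂ)‖ = 1 := by
    rcases h.ε_or with h1 | h1
    · rw [h1]; norm_num
    · rw [h1]; norm_num
  rw [this, one_mul]

/-- the shift `(k - 1) / 2` -/
noncomputable def kap' (H : Hk) : ℝ := (H.k - 1) / 2

/-- the normalised L-function -/
noncomputable def Ls (H : Hk) (s : ℂ) : ℂ :=
  ((H.h / (2 * Real.pi) : ℝ) : ℂ) ^ (-(s + kap' H)) * EE H (s + kap' H)

theorem ls_diff (h : IsHk H) : Differentiable ℂ (Ls H) := by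
  have h1 : Differentiable ℂ fun s : ℂ => s + (kap' H : ℂ) := by fun_prop
  have h2 : Differentiable ℂ fun s : ℂ => -(s + (kap' H : ℂ)) := by fun_prop
  have h3 : Differentiable ℂ fun s : ℂ => ((H.h / (2 * Real.pi) : ℝ) : ℂ) ^ (-(s + (kap' H : ℂ))) :=
    fun s => (h2 s).const_cpow (Or.inl (hh_ne h))
  exact h3.mul ((ee_diff h).comp h1)

theorem ls_growth (h : IsHk H) (hp : H.p = 1) (a b : ℝ) :
    ∃ C A : ℝ, ∀ s : ℂ, a ≤ s.re → s.re ≤ b → ‖Ls H s‖ ≤ C * (1 + |s.im|) ^ A := by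
  obtain ⟨C, A, hC⟩ := ee_strip h hp (a + kap' H) (b + kap' H)
  have hq := hh_pos h
  obtain ⟨Q, hQ⟩ : ∃ Q : ℝ, Q = (H.h / (2 * Real.pi)) ^ (-(a + kap' H)) + (H.h / (2 * Real.pi)) ^ (-(b + kap' H)) :=
    ⟨_, rfl⟩
  have hQ1 : ∀ x : ℝ, a ≤ x → x ≤ b → (H.h / (2 * Real.pi)) ^ (-(x + kap' H)) ≤ Q := by
    intro x h1 h2
    have p1 : 0 < (H.h / (2 * Real.pi)) ^ (-(a + kap' H)) := Real.rpow_pos_of_pos hq _
    have p2 : 0 < (H.h / (2 * Real.pi)) ^ (-(b + kap' H)) := Real.rpow_pos_of_pos hq _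
    rw [hQ]
    rcases le_total (H.h / (2 * Real.pi)) 1 with h3 | h3
    · have := Real.rpow_le_rpow_of_exponent_ge hq h3 (show -(b + kap' H) ≤ -(x + kap' H) by linarith)
      linarith
    · have := Real.rpow_le_rpow_of_exponent_le h3 (show -(x + kap' H) ≤ -(a + kap' H) by linarith)
      linarith
  refine ⟨Q * C, A, fun s h1 h2 => ?_⟩
  have hre : (s + (kap' H : ℂ)).re = s.re + kap' H := by simp
  have him : (s + (kap' H : ℂ)).im = s.im := by simp
  have h3 := hC (s + kap' H) (by rw [hre]; linarith) (by rw [hre]; linarith)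
  rw [him] at h3
  unfold Ls
  rw [norm_mul, Complex.norm_cpow_eq_rpow_re_of_pos hq, Complex.neg_re, hre, mul_assoc]
  exact mul_le_mul (hQ1 s.re h1 h2) h3 (norm_nonneg _)
    ((Real.rpow_nonneg hq.le _).trans (hQ1 s.re h1 h2))

/-- far to the right it is the Dirichlet series -/
theorem ls_far (h : IsHk H) (hp : H.p = 1) {s : ℂ} (hs : H.β + 1 < s.re + kap' H) :
    Ls H s = ∑' m : ℕ, ((H.b (m + 1) : ℝ) : ℂ) * ((m + 1 : ℕ) : ℂ) ^ (-(s + kap' H)) := by
  unfold Ls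
  rw [ee_eq h hp (by simpa using hs), ← mul_assoc, ← Complex.cpow_add _ _ (hh_ne h)]
  simp

end Pool.Agent.Q212.ND
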