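import Pool.Agent.Q212.ND.Std

/-! From prime powers to primes. -/

set_option autoImplicit false

open Complex Filter Topology Set

namespace Pool.Agent.Q212.ND

open Pool.Agent.Q18.LF (psum)

variable {lam ps : ℕ → ℂ} {α : Nat.Primes → Fin 2 → ℂ}

/-- the sum over the primes -/
noncomputable def prm (lam : ℕ → ℂ) (x : ℝ) : ℝ := ∑ p ∈ (Finset.Icc 1 ⌊x⌋₊).filter Nat.Prime, (lam p).re

theorem tsum_primes (g : ℕ → ℝ) {x : ℝ} (hx : 0 ≤ x) :
    (∑' p : Nat.Primes, if ((p : ℕ) : ℝ) ≤ x then g p else 0) =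
      ∑ p ∈ (Finset.Icc 1 ⌊x⌋₊).filter Nat.Prime, g p := by
  have h1 : (∑' p : Nat.Primes, if ((p : ℕ) : ℝ) ≤ x then g p else 0) =
      ∑' n : ℕ, ({n : ℕ | n.Prime}).indicator (fun n : ℕ => if (n : ℝ) ≤ x then g n else 0) n :=
    tsum_subtype ({n : ℕ | n.Prime}) (fun n : ℕ => if (n : ℝ) ≤ x then g n else 0)
  rw [h1, tsum_eq_sum (s := (Finset.Icc 1 ⌊x⌋₊).filter Nat.Prime)]
  · refine Finset.sum_congr rfl fun p hp => ?_
    rw [Finset.mem_filter, Finset.mem_Icc] at hp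
    rw [Set.indicator_of_mem (show p ∈ {n : ℕ | n.Prime} from hp.2), if_pos ((Nat.le_floor_iff hx).1 hp.1.2)]
  · intro n hn
    rw [Finset.mem_filter, Finset.mem_Icc, not_and] at hn
    by_cases hp : n.Prime
    · rw [Set.indicator_of_mem (show n ∈ {n : ℕ | n.Prime} from hp), if_neg]
      intro hle
      exact hn ⟨hp.one_lt.le, (Nat.le_floor_iff hx).2 hle⟩ hp
    · rw [Set.indicator_of_notMem (show n ∉ {n : ℕ | n.Prime} from hp)]

theorem psum_prm (h : Dat lam ps) (hα : IsAl lam ps α) {σ : ℝ} (hσ : 1 / 2 < σ) :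
    ∃ C : ℝ, 0 ≤ C ∧ ∀ x : ℝ, 1 ≤ x → |psum α x - prm lam x| ≤ C * x ^ σ := by
  classical
  refine ⟨∑' y : Nat.Primes × ℕ, ‖tr (α y.1) (y.2 + 2)‖ * (((y.1 : ℕ) : ℝ) ^ (-σ)) ^ (y.2 + 2),
    tsum_nonneg fun y => by positivity, fun x hx => ?_⟩
  have hx0 : 0 < x := by linarith
  obtain ⟨f, hf⟩ : ∃ f : Nat.Primes × ℕ → ℝ, f = fun y => if ((y.1 : ℕ) : ℝ) ^ (y.2 + 1) ≤ x then
    (∑ j, α y.1 j ^ (y.2 + 1)).re / ((y.2 : ℝ) + 1) else 0 := ⟨_, rfl⟩
  have hpow : ∀ (y : Nat.Primes) (k : ℕ) (s : ℝ), 0 ≤ s → ((y : ℕ) : ℝ) ^ k ≤ x →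
      1 ≤ (((y : ℕ) : ℝ) ^ (-s)) ^ k * x ^ s := by
    intro y k s hs hle
    have hp0 : (0 : ℝ) < (y : ℕ) := by exact_mod_cast y.2.pos
    have e : (((y : ℕ) : ℝ) ^ (-s)) ^ k = ((((y : ℕ) : ℝ) ^ k) ^ s)⁻¹ := by
      rw [← Real.rpow_neg (by positivity), ← Real.rpow_natCast, ← Real.rpow_natCast, ← Real.rpow_mul hp0.le,
        ← Real.rpow_mul hp0.le]
      congr 1
      ring
    rw [e, inv_mul_eq_div, one_le_div (by positivity)]
    exact Real.rpow_le_rpow (by positivity) hle hs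
  have hk1 : ∀ k : ℕ, (1 : ℝ) ≤ (k : ℝ) + 1 := fun k => by
    have : (0 : ℝ) ≤ k := Nat.cast_nonneg _
    linarith
  have hsum : Summable f := by
    have h1 := (summ h hα (σ := 2) (by norm_num)).mul_right (x ^ (2 : ℝ))
    refine Summable.of_norm_bounded h1 fun y => ?_
    rw [hf]
    simp only
    split_ifs with hle
    · have h2 := hpow y.1 (y.2 + 1) 2 (by norm_num) hle
      rw [Real.norm_eq_abs, abs_div, abs_of_pos (show (0 : ℝ) < (y.2 : ℝ) + 1 by linarith [hk1 y.2]), mul_assoc]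
      have h3 : |(∑ j, α y.1 j ^ (y.2 + 1)).re| ≤ ‖tr (α y.1) (y.2 + 1)‖ := Complex.abs_re_le_norm _
      have h4 : 0 ≤ ‖tr (α y.1) (y.2 + 1)‖ / ((y.2 : ℝ) + 1) := by have := hk1 y.2; positivity
      calc |(∑ j, α y.1 j ^ (y.2 + 1)).re| / ((y.2 : ℝ) + 1) ≤ ‖tr (α y.1) (y.2 + 1)‖ / ((y.2 : ℝ) + 1) :=
            div_le_div_of_nonneg_right h3 (by linarith [hk1 y.2])
        _ ≤ _ := le_mul_of_one_le_right h4 h2
    · rw [norm_zero]
      positivity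
  have e0 : psum α x = ∑' y, f y := by
    rw [hf]
    unfold psum
    refine tsum_congr fun y => ?_
    split_ifs <;> rfl
  have h1 : ∑' y, f y = (∑' p : Nat.Primes, f (p, 0)) + ∑' y : Nat.Primes × ℕ, f (y.1, y.2 + 1) := by
    have hs0 : Summable fun p : Nat.Primes => f (p, 0) := hsum.comp_injective (i := fun p : Nat.Primes => (p, 0))
      fun a b hab => (Prod.mk.inj hab).1
    have hs1 : Summable fun y : Nat.Primes × ℕ => f (y.1, y.2 + 1) :=
      hsum.comp_injective (i := fun y : Nat.Primes × ℕ => (y.1, y.2 + 1)) fun a b hab => by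
        have := Prod.mk.inj hab
        exact Prod.ext this.1 (by omega)
    rw [hsum.tsum_prod, hs1.tsum_prod, ← hs0.tsum_add hs1.prod]
    exact tsum_congr fun p => (hsum.prod_factor p).tsum_eq_zero_add
  have e1 : (∑' p : Nat.Primes, f (p, 0)) = prm lam x := by
    unfold prm
    rw [← tsum_primes (fun n => (lam n).re) hx0.le, hf]
    refine tsum_congr fun p => ?_
    simp only [zero_add, pow_one, Nat.cast_zero, div_one]
    rw [Fin.sum_univ_two, (hα p).1]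
  rw [e0, h1, e1, add_sub_cancel_left, ← tsum_mul_right, ← Real.norm_eq_abs]
  refine tsum_of_norm_bounded ((summ2 h hα hσ).mul_right (x ^ σ)).hasSum fun y => ?_
  rw [hf]
  simp only
  split_ifs with hle
  · have h2 := hpow y.1 (y.2 + 2) σ (by linarith) hle
    rw [Real.norm_eq_abs, abs_div, mul_assoc]
    have h3 : |(∑ j, α y.1 j ^ (y.2 + 1 + 1)).re| ≤ ‖tr (α y.1) (y.2 + 2)‖ := Complex.abs_re_le_norm _
    have h5 : (1 : ℝ) ≤ |((y.2 + 1 : ℕ) : ℝ) + 1| := by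
      rw [abs_of_pos (by positivity)]
      exact hk1 _
    calc |(∑ j, α y.1 j ^ (y.2 + 1 + 1)).re| / |((y.2 + 1 : ℕ) : ℝ) + 1|
        ≤ |(∑ j, α y.1 j ^ (y.2 + 1 + 1)).re| := div_le_self (abs_nonneg _) h5
      _ ≤ ‖tr (α y.1) (y.2 + 2)‖ := h3
      _ ≤ _ := le_mul_of_one_le_right (norm_nonneg _) h2
  · rw [norm_zero]
    positivity

end Pool.Agent.Q212.ND
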