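import Pool.Agent.Q212.ND.Glob
import Pool.Agent.Q212.ND.Hec
import Pool.Agent.Q18.LF.Aut

/-! Hecke series with an Euler product of degree two are standard L-functions. -/

set_option autoImplicit false

open Complex Filter Topology MeasureTheory Set

namespace Pool.Agent.Q212.ND

open Pool.Agent.H471R3.GJ (Hk IsHk)
open Pool.Agent.Q18.LF (StandardL)

variable {H : Hk} {lam ps : ℕ → ℂ} {α : Nat.Primes → Fin 2 → ℂ}

/-- the coefficients are normalised -/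
def Nrm (H : Hk) (lam : ℕ → ℂ) : Prop :=
  ∀ m : ℕ, ((H.b (m + 1) : ℝ) : ℂ) = lam (m + 1) * (((m + 1 : ℕ) : ℝ) ^ (kap' H) : ℝ)

theorem ls_far' (h : IsHk H) (hp : H.p = 1) (hn : Nrm H lam) (h0 : lam 0 = 0) {s : ℂ}
    (hs : H.β + 1 < s.re + kap' H) :
    Ls H s = ∑' n : ℕ, lam n * (n : ℂ) ^ (-s) := by
  rw [ls_far h hp hs]
  have e : ∀ m : ℕ, ((H.b (m + 1) : ℝ) : ℂ) * ((m + 1 : ℕ) : ℂ) ^ (-(s + kap' H)) =
      lam (m + 1) * ((m + 1 : ℕ) : ℂ) ^ (-s) := by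
    intro m
    have hm : ((m + 1 : ℕ) : ℂ) ≠ 0 := Nat.cast_ne_zero.2 (Nat.succ_ne_zero m)
    have hm0 : (0 : ℝ) ≤ ((m + 1 : ℕ) : ℝ) := Nat.cast_nonneg _
    rw [hn m, neg_add, Complex.cpow_add _ _ hm, Complex.ofReal_cpow hm0, Complex.ofReal_natCast]
    have h1 : ((m + 1 : ℕ) : ℂ) ^ (kap' H : ℂ) * ((m + 1 : ℕ) : ℂ) ^ (-(kap' H : ℂ)) = 1 := by
      rw [← Complex.cpow_add _ _ hm, add_neg_cancel, Complex.cpow_zero]
    linear_combination lam (m + 1) * ((m + 1 : ℕ) : ℂ) ^ (-s) * h1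
  rw [tsum_congr e]
  by_cases hsum : Summable fun n : ℕ => lam n * (n : ℂ) ^ (-s)
  · rw [hsum.tsum_eq_zero_add, h0, zero_mul, zero_add]
  · have h2 : ¬ Summable fun n : ℕ => lam (n + 1) * ((n + 1 : ℕ) : ℂ) ^ (-s) := fun h3 =>
      hsum ((summable_nat_add_iff 1).1 h3)
    rw [tsum_eq_zero_of_not_summable hsum, tsum_eq_zero_of_not_summable h2]

theorem series_diff (hd : Dat lam ps) :
    DifferentiableOn ℂ (fun s : ℂ => ∑' n : ℕ, lam n * (n : ℂ) ^ (-s)) {s : ℂ | 1 < s.re} := by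
  have habs : LSeries.abscissaOfAbsConv lam ≤ 1 := by
    refine LSeries.abscissaOfAbsConv_le_of_forall_lt_LSeriesSummable' fun y hy => ?_
    have hy' : (1 : ℝ) < y := by exact_mod_cast hy
    refine Summable.of_norm ((summ1 hd hy').congr fun n => ?_)
    rcases Nat.eq_zero_or_pos n with rfl | hn
    · rw [hd.zero]
      simp
    · rw [LSeries.term_of_ne_zero hn.ne', norm_div, Complex.norm_natCast_cpow_of_pos hn, Complex.ofReal_re,
        Real.rpow_neg (Nat.cast_nonneg n)]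
      rfl
  have h1 : DifferentiableOn ℂ (LSeries lam) {s : ℂ | 1 < s.re} := by
    refine (LSeries_differentiableOn lam).mono fun s hs => ?_
    have hs' : (1 : ℝ) < s.re := hs
    refine lt_of_le_of_lt habs ?_
    exact_mod_cast hs'
  refine h1.congr fun s hs => ?_
  unfold LSeries
  refine tsum_congr fun n => ?_
  rcases Nat.eq_zero_or_pos n with rfl | hn
  · rw [hd.zero]
    simp
  · rw [LSeries.term_of_ne_zero hn.ne', Complex.cpow_neg]
    rfl

theorem ls_eq (h : IsHk H) (hp : H.p = 1) (hn : Nrm H lam) (hd : Dat lam ps) {s : ℂ} (hs : 1 < s.re) :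
    Ls H s = ∑' n : ℕ, lam n * (n : ℂ) ^ (-s) := by
  have hU : IsOpen {s : ℂ | 1 < s.re} := isOpen_lt continuous_const Complex.continuous_re
  have hU' : IsPreconnected {s : ℂ | 1 < s.re} := (convex_halfSpace_re_gt 1).isPreconnected
  have h1 : AnalyticOnNhd ℂ (Ls H) {s : ℂ | 1 < s.re} := (ls_diff h).differentiableOn.analyticOnNhd hU
  have h2 : AnalyticOnNhd ℂ (fun s : ℂ => ∑' n : ℕ, lam n * (n : ℂ) ^ (-s)) {s : ℂ | 1 < s.re} :=
    (series_diff hd).analyticOnNhd hU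
  obtain ⟨x, hx⟩ : ∃ x : ℝ, x = max 2 (H.β + 2 - kap' H) := ⟨_, rfl⟩
  have hx2 : 2 ≤ x := by rw [hx]; exact le_max_left _ _
  have hxb : H.β + 2 - kap' H ≤ x := by rw [hx]; exact le_max_right _ _
  have hmem : (x : ℂ) ∈ {s : ℂ | 1 < s.re} := by
    show 1 < (x : ℂ).re
    rw [Complex.ofReal_re]
    linarith
  have hev : Ls H =ᶠ[𝓝 (x : ℂ)] fun s : ℂ => ∑' n : ℕ, lam n * (n : ℂ) ^ (-s) := by
    have hopen : {s : ℂ | H.β + 1 - kap' H < s.re} ∈ 𝓝 (x : ℂ) := by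
      refine (isOpen_lt continuous_const Complex.continuous_re).mem_nhds ?_
      show H.β + 1 - kap' H < (x : ℂ).re
      rw [Complex.ofReal_re]
      linarith
    filter_upwards [hopen] with w hw
    have hw' : H.β + 1 - kap' H < w.re := hw
    exact ls_far' h hp hn hd.zero (by linarith)
  exact h1.eqOn_of_preconnected_of_eventuallyEq h2 hU' hmem hev hs

/-- the completed function -/
noncomputable def Lc (H : Hk) (s : ℂ) : ℂ := 2 * (H.h : ℂ) ^ (-(kap' H : ℂ)) * Mel H (s + kap' H)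

theorem h_cpow_ne (h : IsHk H) (w : ℂ) : (H.h : ℂ) ^ w ≠ 0 := by
  have : (H.h : ℂ) ≠ 0 := by exact_mod_cast h.h_pos.ne'
  rw [Complex.cpow_def_of_ne_zero this]
  exact Complex.exp_ne_zero _

theorem lc_eq (h : IsHk H) {s : ℂ} (hs : 1 < s.re) (hk : 0 < s.re + kap' H) :
    Lc H s = (((H.h ^ 2 : ℝ) : ℂ)) ^ (s / 2) *
      (∏ j, Gammaℝ (s - (![-(kap' H : ℂ), -((kap' H : ℂ) + 1)] : Fin 2 → ℂ) j)) * Ls H s := by
  have hh := h.h_pos
  have hpi := Real.pi_pos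
  have hhc : (H.h : ℂ) ≠ 0 := by exact_mod_cast hh.ne'
  rw [Fin.prod_univ_two]
  simp only [Matrix.cons_val_zero, Matrix.cons_val_one, sub_neg_eq_add]
  rw [← add_assoc, Complex.Gammaℝ_mul_Gammaℝ_add_one, Complex.Gammaℂ_def]
  have h1 : (((H.h ^ 2 : ℝ) : ℂ)) ^ (s / 2) = (H.h : ℂ) ^ s := by
    rw [Complex.ofReal_pow, ← Complex.cpow_nat_mul' (x := (H.h : ℂ)) (n := 2) (y := s / 2)]
    · congr 1
      push_cast
      ring
    · rw [Complex.arg_ofReal_of_nonneg hh.le]; simp [Real.pi_pos]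
    · rw [Complex.arg_ofReal_of_nonneg hh.le]; simp [Real.pi_pos.le]
  rw [h1]
  unfold Lc Ls EE
  have hg : Complex.Gamma (s + kap' H) ≠ 0 := Complex.Gamma_ne_zero_of_re_pos (by simpa using hk)
  have h2 : ((H.h / (2 * Real.pi) : ℝ) : ℂ) ^ (-(s + kap' H)) =
      (H.h : ℂ) ^ (-(s + (kap' H : ℂ))) * ((2 * (Real.pi : ℂ)) ^ (s + (kap' H : ℂ))) := by
    have e1 : ((2 * Real.pi : ℝ) : ℂ) = 2 * (Real.pi : ℂ) := by push_cast; rfl
    rw [div_eq_mul_inv, Complex.ofReal_mul, Complex.mul_cpow_ofReal_nonneg hh.le (by positivity), Complex.ofReal_inv, e1,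
      Complex.inv_cpow _ _ (by
        rw [← e1, Complex.arg_ofReal_of_nonneg (by positivity)]
        exact Real.pi_pos.ne), Complex.cpow_neg (2 * (Real.pi : ℂ)), inv_inv]
  have h3 : (2 * (Real.pi : ℂ)) ^ (-(s + (kap' H : ℂ))) * (2 * (Real.pi : ℂ)) ^ (s + (kap' H : ℂ)) = 1 := by
    have e1 : (2 * (Real.pi : ℂ)) ≠ 0 := by
      have : (Real.pi : ℂ) ≠ 0 := by exact_mod_cast hpi.ne'
      simpa using this
    rw [← Complex.cpow_add _ _ e1, neg_add_cancel, Complex.cpow_zero]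
  have h4 : (H.h : ℂ) ^ s * (H.h : ℂ) ^ (-(s + (kap' H : ℂ))) = (H.h : ℂ) ^ (-(kap' H : ℂ)) := by
    rw [← Complex.cpow_add _ _ hhc]
    congr 1
    ring
  rw [h2, ← h4]
  have h5 : Complex.Gamma (s + kap' H) * (Complex.Gamma (s + kap' H))⁻¹ = 1 := mul_inv_cancel₀ hg
  linear_combination (-2 * (H.h : ℂ) ^ s * (H.h : ℂ) ^ (-(s + (kap' H : ℂ))) * Mel H (s + kap' H) *
    (Complex.Gamma (s + kap' H) * (Complex.Gamma (s + kap' H))⁻¹)) * h3 -
    2 * (H.h : ℂ) ^ s * (H.h : ℂ) ^ (-(s + (kap' H : ℂ))) * Mel H (s + kap' H) * h5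

theorem tr_sum (a : Fin 2 → ℂ) (k : ℕ) : ∑ j, a j ^ k = tr a k := rfl

theorem eps_norm (h : IsHk H) : ‖(H.ε : ℂ)‖ = 1 := by
  rcases h.ε_or with h1 | h1
  · rw [h1]; norm_num
  · rw [h1]; norm_num

theorem lc_fe (h : IsHk H) (s : ℂ) : Lc H (1 - s) = (H.ε : ℂ) * (starRingEnd ℂ) (Lc H ((starRingEnd ℂ) s)) := by
  have hh := h.h_pos
  have e1 : 1 - s + (kap' H : ℂ) = (H.k : ℂ) - (s + kap' H) := by
    unfold kap'
    push_cast
    ring
  have e2 : (starRingEnd ℂ) ((starRingEnd ℂ) s + (kap' H : ℂ)) = s + kap' H := by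
    rw [map_add, Complex.conj_conj, Complex.conj_ofReal]
  have e3 : (starRingEnd ℂ) ((H.h : ℂ) ^ (-(kap' H : ℂ))) = (H.h : ℂ) ^ (-(kap' H : ℂ)) := by
    rw [← Complex.ofReal_neg, ← Complex.ofReal_cpow hh.le, Complex.conj_ofReal]
  unfold Lc
  rw [e1, mel_fe h, map_mul, map_mul, e3, ← mel_conj, e2]
  simp only [map_ofNat]
  ring

/-- **Hecke series with an Euler product are standard L-functions.** -/
theorem std (h : IsHk H) (hp : H.p = 1) (hk : -1 ≤ kap' H) (hn : Nrm H lam) (hd : Dat lam ps) (hα : IsAl lam ps α) :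
    StandardL (H.h ^ 2) (![-(kap' H : ℂ), -((kap' H : ℂ) + 1)] : Fin 2 → ℂ) α (H.ε : ℂ) (Ls H) (Lc H) where
  degree := by norm_num
  conductor := by have := h.h_pos; positivity
  summable σ hσ := by
    simp only [tr_sum]
    exact summ hd hα hσ
  entire := ls_diff h
  euler s hs := by
    simp only [tr_sum]
    rw [ls_eq h hp hn hd hs, euler hd hα hs]
  growth a b _ := ls_growth h hp a b
  completed := by
    have h1 : Differentiable ℂ fun s : ℂ => s + (kap' H : ℂ) := by fun_prop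
    exact ((mel_diff h).comp h1).const_mul _
  completed_eq s hs := lc_eq h hs (by linarith)
  root := eps_norm h
  functional := lc_fe h

end Pool.Agent.Q212.ND
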